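import Mathlib

/-!
# The inequality for configurations on d + 1 parallel lines (MP_280848_co)
-/

set_option autoImplicit false

namespace H2P

open Finset

/-- The lines with nonzero cofactor. -/
theorem part_S {k : ℕ} (C h N : Fin k → ℝ) (a A : ℝ)
    (hh : ∀ l, 0 ≤ h l) (h1 : ∀ l m, l ≠ m → C m ≠ 0 → N l * a ≤ h l * |C m|)
    (h2 : ∀ l m, l ≠ m → h l * |C m| ≤ A) (h4 : ∑ l, h l * |C l| ≤ 2 * A)
    {S : Finset (Fin k)} (hS : ∀ l, l ∈ S ↔ C l ≠ 0) {i₁ i₂ : Fin k} (hi₁ : i₁ ∈ S) (hi₂ : i₂ ∈ S.erase i₁)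
    (hm₁ : ∀ l ∈ S, |C i₁| ≤ |C l|) (hm₂ : ∀ l ∈ S.erase i₁, |C i₂| ≤ |C l|) : (∑ l ∈ S, N l) * a ≤ 2 * A := by
  obtain ⟨h21, hi₂S⟩ := mem_erase.1 hi₂
  have hμ : 0 < |C i₁| := abs_pos.2 ((hS _).1 hi₁)
  have hμ2 : 0 < |C i₂| := abs_pos.2 ((hS _).1 hi₂S)
  have hle : |C i₁| ≤ |C i₂| := hm₁ _ hi₂S
  have e1 : N i₁ * a ≤ h i₁ * |C i₂| := h1 _ _ h21.symm ((hS _).1 hi₂S)
  have e2 : h i₁ * |C i₂| ≤ A := h2 _ _ h21.symm
  have e3 : (∑ l ∈ S.erase i₁, N l) * a * |C i₂| ≤ |C i₁| * (2 * A - h i₁ * |C i₁|) := by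
    have e4 : ∑ l ∈ S.erase i₁, h l * |C l| + h i₁ * |C i₁| ≤ 2 * A := by
      rw [add_comm, Finset.add_sum_erase S (fun l => h l * |C l|) hi₁]
      refine le_trans (Finset.sum_le_univ_sum_of_nonneg fun l => mul_nonneg (hh l) (abs_nonneg _)) h4
    have e5 : (∑ l ∈ S.erase i₁, N l) * a * |C i₂| ≤ ∑ l ∈ S.erase i₁, |C i₁| * (h l * |C l|) := by
      rw [Finset.sum_mul, Finset.sum_mul]
      refine Finset.sum_le_sum fun l hl => ?_
      obtain ⟨hl1, hlS⟩ := mem_erase.1 hl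
      have e6 := h1 l i₁ hl1 ((hS _).1 hi₁)
      have e7 := hm₂ l hl
      calc N l * a * |C i₂| ≤ h l * |C i₁| * |C i₂| := mul_le_mul_of_nonneg_right e6 hμ2.le
        _ ≤ h l * |C i₁| * |C l| := mul_le_mul_of_nonneg_left e7 (mul_nonneg (hh l) hμ.le)
        _ = |C i₁| * (h l * |C l|) := by ring
    rw [← Finset.mul_sum] at e5
    refine le_trans e5 (mul_le_mul_of_nonneg_left (by linarith) hμ.le)
  rw [← Finset.add_sum_erase S N hi₁, add_mul]
  have e8 : N i₁ * a * |C i₂| ^ 2 ≤ h i₁ * |C i₂| * |C i₂| ^ 2 := mul_le_mul_of_nonneg_right e1 (by positivity)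
  have e9 : (∑ l ∈ S.erase i₁, N l) * a * |C i₂| * |C i₂| ≤ |C i₁| * (2 * A - h i₁ * |C i₁|) * |C i₂| :=
    mul_le_mul_of_nonneg_right e3 hμ2.le
  have e10 : h i₁ * |C i₂| * (|C i₂| ^ 2 - |C i₁| ^ 2) ≤ A * (|C i₂| ^ 2 - |C i₁| ^ 2) :=
    mul_le_mul_of_nonneg_right e2 (by nlinarith)
  have hA : 0 ≤ A := le_trans (mul_nonneg (hh _) (abs_nonneg _)) e2
  have e11 : 0 ≤ A * (|C i₂| - |C i₁|) ^ 2 := mul_nonneg hA (sq_nonneg _)
  have e12 : (N i₁ * a + (∑ l ∈ S.erase i₁, N l) * a) * |C i₂| ^ 2 ≤ 2 * A * |C i₂| ^ 2 := by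
    nlinarith
  exact le_of_mul_le_mul_right e12 (by positivity)

theorem ineq (d : ℕ) (hd : 3 ≤ d) (C h N : Fin (d + 1) → ℝ) (a A : ℝ) (ha : 0 < a) (hN : ∀ l, 0 ≤ N l)
    (hh : ∀ l, 0 ≤ h l) (hsum : ∑ l, C l = 0)
    (h3 : ∃ i j k, i ≠ j ∧ i ≠ k ∧ j ≠ k ∧ C i ≠ 0 ∧ C j ≠ 0 ∧ C k ≠ 0)
    (h1 : ∀ l m, l ≠ m → C m ≠ 0 → N l * a ≤ h l * |C m|) (h2 : ∀ l m, l ≠ m → h l * |C m| ≤ A)
    (h4 : ∑ l, h l * |C l| ≤ 2 * A) : (∑ l, N l) * a ≤ (d - 1) * A := by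
  classical
  set S : Finset (Fin (d + 1)) := univ.filter fun l => C l ≠ 0 with hSdef
  have hS : ∀ l, l ∈ S ↔ C l ≠ 0 := fun l => by rw [hSdef, mem_filter]; simp
  have hd' : (3 : ℝ) ≤ d := by exact_mod_cast hd
  have hcard3 : 3 ≤ S.card := by
    obtain ⟨i, j, k, hij, hik, hjk, hi, hj, hk⟩ := h3
    have e : ({i, j, k} : Finset (Fin (d + 1))).card = 3 := by
      rw [card_insert_of_notMem (by simp [hij, hik]), card_pair hjk]
    rw [← e]
    apply card_le_card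
    intro l hl
    simp only [mem_insert, mem_singleton] at hl
    rcases hl with rfl | rfl | rfl
    · exact (hS _).2 hi
    · exact (hS _).2 hj
    · exact (hS _).2 hk
  obtain ⟨i₁, hi₁, hm₁⟩ := exists_min_image S (fun l => |C l|) (card_pos.1 (by omega))
  obtain ⟨i₂, hi₂, hm₂⟩ := exists_min_image (S.erase i₁) (fun l => |C l|)
    (card_pos.1 (by rw [card_erase_of_mem hi₁]; omega))
  obtain ⟨h21, hi₂S⟩ := mem_erase.1 hi₂
  have hpart := part_S C h N a A hh h1 h2 h4 hS hi₁ hi₂ hm₁ hm₂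
  have hA : 0 ≤ A := le_trans (mul_nonneg (hh _) (abs_nonneg _)) (h2 _ _ h21.symm)
  have hsplit : ∑ l, N l = ∑ l ∈ S, N l + ∑ l ∈ Sᶜ, N l := (Finset.sum_add_sum_compl S N).symm
  have hcompl : (Sᶜ.card : ℝ) = d + 1 - S.card := by
    rw [card_compl, Fintype.card_fin, Nat.cast_sub (by
      have := card_le_univ S
      rwa [Fintype.card_fin] at this)]
    push_cast
    ring
  rw [hsplit, add_mul]
  by_cases h5 : 4 ≤ S.card
  · have e1 : (∑ l ∈ Sᶜ, N l) * a ≤ Sᶜ.card * A := by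
      rw [Finset.sum_mul, ← nsmul_eq_mul]
      refine Finset.sum_le_card_nsmul _ _ _ fun l hl => ?_
      have hl1 : l ≠ i₁ := fun e => (mem_compl.1 hl) (e ▸ hi₁)
      exact (h1 l i₁ hl1 ((hS _).1 hi₁)).trans (h2 l i₁ hl1)
    rw [hcompl] at e1
    have e2 : (4 : ℝ) ≤ S.card := by exact_mod_cast h5
    nlinarith
  · have hc3 : S.card = 3 := by omega
    obtain ⟨i₃, hi₃⟩ : ((S.erase i₁).erase i₂).Nonempty := by
      rw [← card_pos, card_erase_of_mem hi₂, card_erase_of_mem hi₁]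
      omega
    obtain ⟨h32, h3'⟩ := mem_erase.1 hi₃
    obtain ⟨h31, hi₃S⟩ := mem_erase.1 h3'
    have hSeq : S = {i₁, i₂, i₃} := by
      symm
      apply eq_of_subset_of_card_le
      · intro l hl
        simp only [mem_insert, mem_singleton] at hl
        rcases hl with rfl | rfl | rfl
        · exact hi₁
        · exact hi₂S
        · exact hi₃S
      · rw [hc3, card_insert_of_notMem (by simp [h21.symm, h31.symm]), card_pair h32.symm]
    have hsumS : ∀ f : Fin (d + 1) → ℝ, ∑ l ∈ S, f l = f i₁ + f i₂ + f i₃ := by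
      intro f
      rw [hSeq, sum_insert (by simp [h21.symm, h31.symm]), sum_pair h32.symm]
      ring
    have hC3 : C i₁ + C i₂ + C i₃ = 0 := by
      rw [← hsumS C, ← hsum]
      apply Finset.sum_subset (subset_univ S)
      intro l _ hl
      by_contra h
      exact hl ((hS l).2 h)
    have hμ : 0 < |C i₁| := abs_pos.2 ((hS _).1 hi₁)
    have h12 : |C i₁| ≤ |C i₂| := hm₁ _ hi₂S
    have h23 : |C i₂| ≤ |C i₃| := hm₂ _ h3'
    have hγ : |C i₃| = |C i₁| + |C i₂| := by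
      have e : C i₃ = -(C i₁ + C i₂) := by linarith
      rw [e, abs_neg] at h23 ⊢
      rcases abs_cases (C i₁) with ⟨e1, e1'⟩ | ⟨e1, e1'⟩ <;> rcases abs_cases (C i₂) with ⟨e2, e2'⟩ | ⟨e2, e2'⟩ <;>
        rcases abs_cases (C i₁ + C i₂) with ⟨e3, e3'⟩ | ⟨e3, e3'⟩ <;> linarith
    set α := |C i₁| with hα
    set β := |C i₂| with hβ
    have f1 : N i₁ * a ≤ h i₁ * β := h1 _ _ h21.symm ((hS _).1 hi₂S)
    have f2 : N i₂ * a ≤ h i₂ * α := h1 _ _ h21 ((hS _).1 hi₁)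
    have f3 : N i₃ * a ≤ h i₃ * α := h1 _ _ h31 ((hS _).1 hi₁)
    have g1 : h i₁ * (α + β) ≤ A := by rw [← hγ]; exact h2 _ _ h31.symm
    have g2 : h i₂ * (α + β) ≤ A := by rw [← hγ]; exact h2 _ _ h32.symm
    have g3 : h i₁ * α + h i₂ * β + h i₃ * (α + β) ≤ 2 * A := by
      rw [← hγ]
      refine le_trans ?_ h4
      rw [← hsumS fun l => h l * |C l|]
      exact Finset.sum_le_univ_sum_of_nonneg fun l => mul_nonneg (hh l) (abs_nonneg _)
    have hβ0 : 0 < β := lt_of_lt_of_le hμ h12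
    have hT : (∑ l ∈ S, N l) * a ≤ 3 / 2 * A := by
      rw [hsumS N]
      have e1 : (N i₁ + N i₂ + N i₃) * a ≤ h i₁ * β + h i₂ * α + h i₃ * α := by linarith
      have e2 : (h i₁ * β + h i₂ * α + h i₃ * α) * (α + β) ^ 2 ≤ 3 / 2 * A * (α + β) ^ 2 := by
        have q1 : 0 ≤ (2 * A - (h i₁ * α + h i₂ * β + h i₃ * (α + β))) * (α * (α + β)) :=
          mul_nonneg (by linarith) (by positivity)
        have q2 : 0 ≤ (A - h i₁ * (α + β)) * (β * (α + β) - α ^ 2) :=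
          mul_nonneg (by linarith) (by nlinarith)
        have q3 : 0 ≤ (A - h i₂ * (α + β)) * α ^ 2 := mul_nonneg (by linarith) (by positivity)
        have q4 : 0 ≤ A * ((β - α) * (α + β)) :=
          mul_nonneg hA (mul_nonneg (by linarith) (by positivity))
        nlinarith
      have e3 := le_of_mul_le_mul_right e2 (by positivity)
      linarith
    have hO : (∑ l ∈ Sᶜ, N l) * a ≤ Sᶜ.card * (A / 2) := by
      rw [Finset.sum_mul, ← nsmul_eq_mul]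
      refine Finset.sum_le_card_nsmul _ _ _ fun l hl => ?_
      have hl1 : l ≠ i₁ := fun e => (mem_compl.1 hl) (e ▸ hi₁)
      have hl3 : l ≠ i₃ := fun e => (mem_compl.1 hl) (e ▸ hi₃S)
      have e1 := h1 l i₁ hl1 ((hS _).1 hi₁)
      have e2 := h2 l i₃ hl3
      rw [hγ] at e2
      have e3 : h l * (2 * α) ≤ h l * (α + β) := mul_le_mul_of_nonneg_left (by linarith) (hh l)
      linarith
    rw [hcompl, hc3] at hO
    push_cast at hO
    nlinarith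

end H2P
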