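import Mathlib

/-!
# Determinants of points on parallel lines (MP_280848_co)

`hm x = (1, x)`, `ev w = (0, w)`, `D a` is the determinant of the rows `hm (a i)`. The points are `P l + z • w`, the rows
`r l + z • e` with `r l = hm (P l)`, `e = ev w`, and `C r e m` is the determinant of the rows `r k`, with the row `m` replaced by `e`.
-/

set_option autoImplicit false

namespace H2P

open Finset

variable {d : ℕ}

/-- Homogeneous coordinates. -/
def hm (x : Fin d → ℝ) : Fin (d + 1) → ℝ := Fin.cons 1 x

/-- The vector `(0, w)`. -/
def ev (w : Fin d → ℝ) : Fin (d + 1) → ℝ := Fin.cons 0 w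

theorem hm_add (x w : Fin d → ℝ) (t : ℝ) : hm (x + t • w) = hm x + t • ev w := by
  funext i
  refine Fin.cases ?_ (fun i => ?_) i
  · simp [hm, ev]
  · simp [hm, ev]

theorem D_diffs (a : Fin (d + 1) → Fin d → ℝ) :
    (Matrix.of fun i => hm (a i)).det = (Matrix.of fun i j : Fin d => a i.succ j - a 0 j).det := by
  have h1 : (Matrix.of fun i => hm (a i)).det =
      (Matrix.of fun i => if i = 0 then hm (a 0) else hm (a i) - hm (a 0)).det := by
    refine Matrix.det_eq_of_forall_row_eq_smul_add_const (fun i => if i = 0 then 0 else 1) 0 (by simp) ?_
    intro i j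
    by_cases hi : i = 0
    · subst hi
      simp
    · simp [hi]
  rw [h1, Matrix.det_succ_column_zero, Fin.sum_univ_succ]
  have h2 : ∀ i : Fin d, (Matrix.of fun i => if i = 0 then hm (a 0) else hm (a i) - hm (a 0)) i.succ 0 = 0 := by
    intro i
    simp [hm, Fin.succ_ne_zero]
  rw [Finset.sum_eq_zero fun i _ => by rw [h2 i, mul_zero, zero_mul]]
  have h3 : (Matrix.of fun i => if i = 0 then hm (a 0) else hm (a i) - hm (a 0)) 0 0 = 1 := by
    simp [hm]
  have h4 : (Matrix.of fun i => if i = 0 then hm (a 0) else hm (a i) - hm (a 0)).submatrix
      (Fin.succAbove 0) Fin.succ = (Matrix.of fun i j : Fin d => a i.succ j - a 0 j) := by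
    ext i j
    simp [hm, Fin.succ_ne_zero]
  rw [h3, h4]
  simp

/-- The cofactor. -/
noncomputable def C (r : Fin (d + 1) → Fin (d + 1) → ℝ) (e : Fin (d + 1) → ℝ) (m : Fin (d + 1)) : ℝ :=
  (Matrix.of fun k => if k = m then e else r k).det

theorem clear (r : Fin (d + 1) → Fin (d + 1) → ℝ) (e : Fin (d + 1) → ℝ) (z : Fin (d + 1) → ℝ) (m : Fin (d + 1)) :
    (Matrix.of fun k => if k = m then e else r k + z k • e).det = (Matrix.of fun k => if k = m then e else r k).det := by
  refine Matrix.det_eq_of_forall_row_eq_smul_add_const (fun k => if k = m then 0 else z k) m (by simp) ?_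
  intro i j
  by_cases hi : i = m
  · subst hi
    simp
  · simp [hi]

theorem det_add (r : Fin (d + 1) → Fin (d + 1) → ℝ) (e : Fin (d + 1) → ℝ) (z : Fin (d + 1) → ℝ)
    (h0 : (Matrix.of r).det = 0) : (Matrix.of fun k => r k + z k • e).det = ∑ m, z m * C r e m := by
  classical
  have main : ∀ T : Finset (Fin (d + 1)), (Matrix.of fun k => r k + (if k ∈ T then z k else 0) • e).det =
      ∑ m ∈ T, z m * C r e m := by
    intro T
    induction T using Finset.induction_on with
    | empty =>
      simp only [notMem_empty, if_false, zero_smul, add_zero, sum_empty]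
      exact h0
    | insert m T hm ih =>
      rw [sum_insert hm]
      have h1 : (Matrix.of fun k => r k + (if k ∈ insert m T then z k else 0) • e) =
          (Matrix.of fun k => r k + (if k ∈ T then z k else 0) • e).updateRow m (r m + z m • e) := by
        ext i j
        by_cases hi : i = m
        · subst hi
          simp
        · rw [Matrix.updateRow_ne hi]
          simp [hi]
      have h2 : (Matrix.of fun k => r k + (if k ∈ T then z k else 0) • e).updateRow m (r m) =
          Matrix.of fun k => r k + (if k ∈ T then z k else 0) • e := by
        ext i j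
        by_cases hi : i = m
        · subst hi
          simp [hm]
        · rw [Matrix.updateRow_ne hi]
      have h3 : (Matrix.of fun k => r k + (if k ∈ T then z k else 0) • e).updateRow m e =
          Matrix.of fun k => if k = m then e else r k + (if k ∈ T then z k else 0) • e := by
        ext i j
        by_cases hi : i = m
        · subst hi
          simp
        · rw [Matrix.updateRow_ne hi]
          simp [hi]
      rw [h1, Matrix.det_updateRow_add, Matrix.det_updateRow_smul, h2, h3, ih, clear, C]
      ring
  have h1 := main univ
  simpa using h1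

theorem det_pair (r : Fin (d + 1) → Fin (d + 1) → ℝ) (e : Fin (d + 1) → ℝ) (z : Fin (d + 1) → ℝ)
    {l m : Fin (d + 1)} (hlm : l ≠ m) (s t : ℝ) :
    (Matrix.of fun k => if k = m then r l + s • e else if k = l then r l + t • e else r k + z k • e).det =
      (s - t) * C r e m := by
  have h1 := Matrix.det_updateRow_add_smul_self
    (Matrix.of fun k => if k = m then r l + s • e else if k = l then r l + t • e else r k + z k • e) hlm.symm (-1)
  rw [← h1]
  have h2 : (Matrix.of fun k => if k = m then r l + s • e else if k = l then r l + t • e else r k + z k • e).updateRow m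
      ((Matrix.of fun k => if k = m then r l + s • e else if k = l then r l + t • e else r k + z k • e) m +
        (-1 : ℝ) • (Matrix.of fun k => if k = m then r l + s • e else if k = l then r l + t • e else r k + z k • e) l) =
      (Matrix.of fun k => if k = m then e else r k + (if k = l then t else z k) • e).updateRow m ((s - t) • e) := by
    ext i j
    by_cases hi : i = m
    · subst hi
      simp only [Matrix.updateRow_self]
      simp [hlm]
      ring
    · rw [Matrix.updateRow_ne hi, Matrix.updateRow_ne hi]
      by_cases hl : i = l
      · subst hl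
        simp [hi]
      · simp [hi, hl]
  have h3 : (Matrix.of fun k => if k = m then e else r k + (if k = l then t else z k) • e).updateRow m e =
      Matrix.of fun k => if k = m then e else r k + (if k = l then t else z k) • e := by
    ext i j
    by_cases hi : i = m
    · subst hi
      simp
    · rw [Matrix.updateRow_ne hi]
  rw [h2, Matrix.det_updateRow_smul, h3, clear, C]

theorem sum_C (r : Fin (d + 1) → Fin (d + 1) → ℝ) (e : Fin (d + 1) → ℝ)
    (h0 : (Matrix.of r).det = 0) (j : Fin (d + 1)) : ∑ l, C r e l * r l j = 0 := by
  have h1 : ∀ m, C r e m = Matrix.cramer (Matrix.of r).transpose e m := by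
    intro m
    rw [Matrix.cramer_transpose_apply, C]
    congr 1
    ext i j
    by_cases hi : i = m
    · subst hi
      simp
    · rw [Matrix.updateRow_ne hi]
      simp [hi]
  have h2 := congrFun (Matrix.mulVec_cramer (Matrix.of r).transpose e) j
  rw [Matrix.det_transpose, h0, zero_smul] at h2
  simp only [Matrix.mulVec, dotProduct, Matrix.transpose_apply, Matrix.of_apply, Pi.zero_apply] at h2
  rw [← h2]
  refine sum_congr rfl fun l _ => ?_
  rw [h1 l, mul_comm]

theorem exists_C (r : Fin (d + 1) → Fin (d + 1) → ℝ) (e : Fin (d + 1) → ℝ)
    (h0 : (Matrix.of r).det = 0) (κ : Fin (d + 1) → Fin (d + 1)) (y : Fin (d + 1) → ℝ)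
    (h : (Matrix.of fun i => r (κ i) + y i • e).det ≠ 0) : ∃ m, C r e m ≠ 0 := by
  classical
  by_contra hC
  push Not at hC
  apply h
  by_cases hκ : Function.Injective κ
  · have hb : Function.Bijective κ := (Finite.injective_iff_bijective).1 hκ
    let σ : Equiv.Perm (Fin (d + 1)) := Equiv.ofBijective κ hb
    have h1 : (Matrix.of fun i => r (κ i) + y i • e) =
        (Matrix.of fun k => r k + y (σ.symm k) • e).submatrix σ id := by
      ext i j
      have h2 : σ i = κ i := rfl
      have h3 : σ.symm (κ i) = i := by
        rw [← h2, Equiv.symm_apply_apply]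
      simp only [Matrix.submatrix_apply, Matrix.of_apply, id, h2, h3]
    rw [h1, Matrix.det_permute, det_add r e _ h0, sum_eq_zero fun m _ => by rw [hC m, mul_zero], mul_zero]
  · rw [Function.Injective] at hκ
    push Not at hκ
    obtain ⟨i, k, hik, hne⟩ := hκ
    -- subtract the row `k` from the row `i`
    have h1 := Matrix.det_updateRow_add_smul_self (Matrix.of fun i => r (κ i) + y i • e) hne (-1)
    rw [← h1]
    have h2 : (Matrix.of fun i => r (κ i) + y i • e).updateRow i
        ((Matrix.of fun i => r (κ i) + y i • e) i + (-1 : ℝ) • (Matrix.of fun i => r (κ i) + y i • e) k) =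
        (Matrix.of fun j => if j = i then e else r (κ j) + y j • e).updateRow i ((y i - y k) • e) := by
      ext a b
      by_cases ha : a = i
      · subst ha
        simp only [Matrix.updateRow_self]
        simp [hik]
        ring
      · rw [Matrix.updateRow_ne ha, Matrix.updateRow_ne ha]
        simp [ha]
    have h3 : (Matrix.of fun j => if j = i then e else r (κ j) + y j • e).updateRow i e =
        Matrix.of fun j => if j = i then e else r (κ j) + y j • e := by
      ext a b
      by_cases ha : a = i
      · subst ha
        simp
      · rw [Matrix.updateRow_ne ha]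
    rw [h2, Matrix.det_updateRow_smul, h3]
    have h4 : (Matrix.of fun j => if j = i then e else r (κ j) + y j • e).det =
        (Matrix.of fun j => if j = i then e else r (κ j)).det := by
      refine Matrix.det_eq_of_forall_row_eq_smul_add_const (fun k => if k = i then 0 else y k) i (by simp) ?_
      intro a b
      by_cases ha : a = i
      · subst ha
        simp
      · simp [ha]
    rw [h4]
    by_cases h5 : ∃ j j', j ≠ j' ∧ j ≠ i ∧ j' ≠ i ∧ κ j = κ j'
    · obtain ⟨j, j', h6, h7, h8, h9⟩ := h5
      rw [Matrix.det_zero_of_row_eq h6, mul_zero]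
      funext b
      simp [h7, h8, h9]
    · push Not at h5
      -- a colour which is not used
      obtain ⟨m, hm⟩ : ∃ m, m ∉ (univ.erase i).image κ := by
        by_contra hcon
        push Not at hcon
        have h6 : (univ : Finset (Fin (d + 1))).card ≤ ((univ.erase i).image κ).card :=
          card_le_card fun x _ => hcon x
        have h7 := card_image_le (s := univ.erase i) (f := κ)
        rw [card_erase_of_mem (mem_univ i)] at h7
        have h8 : 0 < (univ : Finset (Fin (d + 1))).card := by
          rw [card_univ, Fintype.card_fin]
          omega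
        omega
      have hinj : Function.Injective fun j => if j = i then m else κ j := by
        intro a b hab
        simp only at hab
        by_cases ha : a = i
        · by_cases hb : b = i
          · rw [ha, hb]
          · rw [if_pos ha, if_neg hb] at hab
            exact absurd (mem_image.2 ⟨b, mem_erase.2 ⟨hb, mem_univ b⟩, hab.symm⟩) hm
        · by_cases hb : b = i
          · rw [if_neg ha, if_pos hb] at hab
            exact absurd (mem_image.2 ⟨a, mem_erase.2 ⟨ha, mem_univ a⟩, hab⟩) hm
          · rw [if_neg ha, if_neg hb] at hab
            by_contra hne'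
            exact h5 a b hne' ha hb hab
      let σ : Equiv.Perm (Fin (d + 1)) := Equiv.ofBijective _ ((Finite.injective_iff_bijective).1 hinj)
      have h6 : (Matrix.of fun j => if j = i then e else r (κ j)) =
          (Matrix.of fun k => if k = m then e else r k).submatrix σ id := by
        ext a b
        have h7 : σ a = if a = i then m else κ a := rfl
        simp only [Matrix.submatrix_apply, Matrix.of_apply, id, h7]
        by_cases ha : a = i
        · simp [ha]
        · have h8 : κ a ≠ m := fun e => hm (mem_image.2 ⟨a, mem_erase.2 ⟨ha, mem_univ a⟩, e⟩)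
          simp [ha, h8]
      have h7 := hC m
      rw [C] at h7
      rw [h6, Matrix.det_permute, h7, mul_zero, mul_zero]

/-- The gap lemma. -/
theorem gap {ι : Type*} [DecidableEq ι] (z : ι → ℝ) (δ : ℝ) (s : Finset ι) (hs : s.Nonempty)
    (h : ∀ i ∈ s, ∀ j ∈ s, i ≠ j → δ ≤ |z i - z j|) :
    ∃ i ∈ s, ∃ j ∈ s, (∀ k ∈ s, z k ≤ z i) ∧ (∀ k ∈ s, z j ≤ z k) ∧ ((s.card : ℝ) - 1) * δ ≤ z i - z j := by
  induction s using Finset.induction_on_max_value z with
  | empty => exact absurd hs not_nonempty_empty
  | insert a s ha hmax ih =>
    rcases s.eq_empty_or_nonempty with h1 | h1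
    · subst h1
      refine ⟨a, mem_insert_self _ _, a, mem_insert_self _ _, ?_, ?_, ?_⟩
      · intro k hk
        rw [mem_insert] at hk
        rcases hk with rfl | hk
        · exact le_refl _
        · exact absurd hk (notMem_empty k)
      · intro k hk
        rw [mem_insert] at hk
        rcases hk with rfl | hk
        · exact le_refl _
        · exact absurd hk (notMem_empty k)
      · simp
    · obtain ⟨i, hi, j, hj, h2, h3, h4⟩ := ih h1 fun i hi j hj hij =>
        h i (mem_insert_of_mem hi) j (mem_insert_of_mem hj) hij
      refine ⟨a, mem_insert_self _ _, j, mem_insert_of_mem hj, ?_, ?_, ?_⟩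
      · intro k hk
        rw [mem_insert] at hk
        rcases hk with rfl | hk
        · exact le_refl _
        · exact hmax k hk
      · intro k hk
        rw [mem_insert] at hk
        rcases hk with rfl | hk
        · exact hmax j hj
        · exact h3 k hk
      · have h5 := h a (mem_insert_self _ _) i (mem_insert_of_mem hi) (fun e => ha (e ▸ hi))
        have h6 := hmax i hi
        rw [abs_of_nonneg (by linarith)] at h5
        rw [card_insert_of_notMem ha]
        push_cast
        linarith

end H2P
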