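import Pool.Agent.Lib.H2P.L
import Pool.Agent.Lib.H2P.Ineq

/-!
# Configurations on d + 1 parallel lines (MP_280848_co)
-/

set_option autoImplicit false

namespace H2P

open Finset

/-- Three of the cofactors are not zero. -/
theorem three {d : ℕ} (P : Fin (d + 1) → Fin d → ℝ) (hP : Function.Injective P) (C : Fin (d + 1) → ℝ)
    (h1 : ∑ l, C l = 0) (h2 : ∀ q, ∑ l, C l * P l q = 0) (h3 : ∃ m, C m ≠ 0) :
    ∃ i j k, i ≠ j ∧ i ≠ k ∧ j ≠ k ∧ C i ≠ 0 ∧ C j ≠ 0 ∧ C k ≠ 0 := by
  classical
  obtain ⟨i, hi⟩ := h3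
  obtain ⟨j, hij, hj⟩ : ∃ j, i ≠ j ∧ C j ≠ 0 := by
    by_contra hc
    push Not at hc
    rw [Finset.sum_eq_single i (fun b _ hb => hc b hb.symm) (fun h => absurd (mem_univ i) h)] at h1
    exact hi h1
  by_contra hc
  push Not at hc
  have h4 : ∀ k, k ≠ i → k ≠ j → C k = 0 := fun k hki hkj => by
    by_contra hk
    exact hk (hc i j k hij hki.symm hkj.symm hi hj)
  have h5 : ∀ f : Fin (d + 1) → ℝ, ∑ l, C l * f l = C i * f i + C j * f j := by
    intro f
    rw [← Finset.add_sum_erase univ _ (mem_univ i), ← Finset.add_sum_erase (univ.erase i) _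
      (mem_erase.2 ⟨hij.symm, mem_univ j⟩), Finset.sum_eq_zero, add_zero]
    intro k hk
    rw [mem_erase, mem_erase] at hk
    rw [h4 k hk.2.1 hk.1, zero_mul]
  have h6 : C i + C j = 0 := by
    have h := h5 fun _ => 1
    simp only [mul_one] at h
    rw [← h]
    exact h1
  apply hij
  apply hP
  funext q
  have h7 := h5 fun l => P l q
  rw [h2 q] at h7
  have h8 : C j = - C i := by linarith
  rw [h8] at h7
  have h9 : C i * (P i q - P j q) = 0 := by linarith
  rcases mul_eq_zero.1 h9 with h | h
  · exact absurd h hi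
  · linarith

theorem main {d n : ℕ} (hd : 3 ≤ d) (X : Fin n → Fin d → ℝ) (hX : Function.Injective X)
    (w : Fin d → ℝ) (hw : w ≠ 0) (c : Fin n → Fin (d + 1)) (hc : Function.Surjective c)
    (hl : ∀ i j, c i = c j ↔ ∃ t : ℝ, X i - X j = t • w) (a A : ℝ) (ha : 0 < a)
    (hA : ∀ u : Fin (d + 1) → Fin n,
      |(Matrix.of fun i j : Fin d => X (u i.succ) j - X (u 0) j).det| ≤ A)
    (hmin : ∀ u : Fin (d + 1) → Fin n, (Matrix.of fun i j : Fin d => X (u i.succ) j - X (u 0) j).det ≠ 0 →
      a ≤ |(Matrix.of fun i j : Fin d => X (u i.succ) j - X (u 0) j).det|)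
    (hne : ∃ u : Fin (d + 1) → Fin n, (Matrix.of fun i j : Fin d => X (u i.succ) j - X (u 0) j).det ≠ 0) :
    ((n : ℝ) - d - 1) * a ≤ (d - 1) * A := by
  classical
  obtain ⟨p, hp⟩ := Function.ne_iff.1 hw
  rw [Pi.zero_apply] at hp
  choose ρ hρ using hc
  set z : Fin n → ℝ := fun i => X i p / w p with hz
  set P : Fin (d + 1) → Fin d → ℝ := fun l => X (ρ l) - z (ρ l) • w with hP
  have hdiff : ∀ i j, c i = c j → X i - X j = (z i - z j) • w := by
    intro i j hij
    obtain ⟨t, ht⟩ := (hl i j).1 hij
    have h1 := congrFun ht p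
    simp only [Pi.sub_apply, Pi.smul_apply, smul_eq_mul] at h1
    have h2 : t = z i - z j := by
      rw [hz]
      simp only
      rw [← sub_div, h1, mul_div_cancel_right₀ _ hp]
    rw [ht, h2]
  have hXP : ∀ i, X i = P (c i) + z i • w := by
    intro i
    have h1 := hdiff i (ρ (c i)) (hρ (c i)).symm
    rw [sub_smul] at h1
    rw [hP]
    simp only
    have h2 : X i = X (ρ (c i)) + (z i • w - z (ρ (c i)) • w) := by
      rw [← h1]
      abel
    rw [h2]
    abel
  have hPinj : Function.Injective P := by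
    intro l m hlm
    have h1 : X (ρ l) - X (ρ m) = (z (ρ l) - z (ρ m)) • w := by
      rw [sub_smul]
      have h2 := hlm
      simp only [hP] at h2
      have h3 : X (ρ l) = X (ρ m) - z (ρ m) • w + z (ρ l) • w := by
        rw [← h2]
        abel
      rw [h3]
      abel
    have h2 := (hl (ρ l) (ρ m)).2 ⟨_, h1⟩
    rwa [hρ, hρ] at h2
  set r : Fin (d + 1) → Fin (d + 1) → ℝ := fun l => hm (P l) with hr
  set e : Fin (d + 1) → ℝ := ev w with he
  have hrow : ∀ i, hm (X i) = r (c i) + z i • e := by
    intro i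
    rw [hXP i, hm_add]
  have h0 : (Matrix.of r).det = 0 := by
    apply Matrix.det_eq_zero_of_column_eq_zero p.succ
    intro l
    have : X (ρ l) p - X (ρ l) p / w p * w p = 0 := by
      rw [div_mul_cancel₀ _ hp, sub_self]
    simpa [hr, hP, hz, hm] using this
  have hT : ∀ u : Fin (d + 1) → Fin n,
      (Matrix.of fun i j : Fin d => X (u i.succ) j - X (u 0) j).det =
        (Matrix.of fun i => r (c (u i)) + z (u i) • e).det := by
    intro u
    rw [← D_diffs fun i => X (u i)]
    congr 1
    ext i j
    rw [Matrix.of_apply, Matrix.of_apply, hrow]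
  simp only [hT] at hA hmin hne
  have hC : ∃ m, C r e m ≠ 0 := by
    obtain ⟨u, hu⟩ := hne
    exact exists_C r e h0 (fun i => c (u i)) (fun i => z (u i)) hu
  have hs1 : ∑ l, C r e l = 0 := by
    have h := sum_C r e h0 0
    simpa [hr, hm] using h
  have hs2 : ∀ q, ∑ l, C r e l * P l q = 0 := by
    intro q
    have h := sum_C r e h0 q.succ
    simpa [hr, hm] using h
  have h3 := three P hPinj _ hs1 hs2 hC
  -- two points on the line `l`, none on the line `m`
  have hpair : ∀ l m, l ≠ m → ∀ i j, c i = l → c j = l → ∃ u : Fin (d + 1) → Fin n,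
      (Matrix.of fun k => r (c (u k)) + z (u k) • e).det = (z i - z j) * C r e m := by
    intro l m hlm i j hi hj
    refine ⟨fun k => if k = m then i else if k = l then j else ρ k, ?_⟩
    rw [← det_pair r e (fun k => z (ρ k)) hlm (z i) (z j)]
    congr 1
    ext k b
    by_cases hk : k = m
    · simp [hk, hi]
    · by_cases hk' : k = l
      · simp [hk', hlm, hj]
      · simp [hk, hk', hρ]
  -- the extreme points of the lines
  have hI : ∀ l, (univ.filter fun i => c i = l).Nonempty := fun l => ⟨ρ l, mem_filter.2 ⟨mem_univ _, hρ l⟩⟩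
  have htop : ∀ l, ∃ i, c i = l ∧ ∀ k, c k = l → z k ≤ z i := by
    intro l
    obtain ⟨i, hi, h⟩ := exists_max_image _ z (hI l)
    exact ⟨i, (mem_filter.1 hi).2, fun k hk => h k (mem_filter.2 ⟨mem_univ _, hk⟩)⟩
  have hbot : ∀ l, ∃ i, c i = l ∧ ∀ k, c k = l → z i ≤ z k := by
    intro l
    obtain ⟨i, hi, h⟩ := exists_min_image _ z (hI l)
    exact ⟨i, (mem_filter.1 hi).2, fun k hk => h k (mem_filter.2 ⟨mem_univ _, hk⟩)⟩
  choose top htc htm using htop
  choose bot hbc hbm using hbot
  have hh : ∀ l, 0 ≤ z (top l) - z (bot l) := fun l => by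
    have := htm l (bot l) (hbc l)
    linarith
  have hI1 : ∀ l, (1 : ℝ) ≤ ((univ.filter fun i => c i = l).card : ℝ) := fun l => by
    exact_mod_cast card_pos.2 (hI l)
  have hineq := ineq d hd (fun l => C r e l) (fun l => z (top l) - z (bot l))
    (fun l => ((univ.filter fun i => c i = l).card : ℝ) - 1) a A ha (fun l => by have := hI1 l; linarith) hh hs1 h3
    (by
      intro l m hlm hm
      have hm' : 0 < |C r e m| := abs_pos.2 hm
      obtain ⟨i, hi, j, hj, -, -, h4⟩ := gap z (a / |C r e m|) (univ.filter fun i => c i = l) (hI l) (by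
        intro i hi j hj hij
        obtain ⟨u, hu⟩ := hpair l m hlm i j (mem_filter.1 hi).2 (mem_filter.1 hj).2
        have h5 : z i - z j ≠ 0 := by
          intro h6
          have h7 := hdiff i j ((mem_filter.1 hi).2.trans (mem_filter.1 hj).2.symm)
          rw [h6, zero_smul, sub_eq_zero] at h7
          exact hij (hX h7)
        have h6 := hmin u (by rw [hu]; exact mul_ne_zero h5 hm)
        rw [hu, abs_mul] at h6
        rw [div_le_iff₀ hm']
        exact h6)
      have h5 : z i - z j ≤ z (top l) - z (bot l) := by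
        have h6 := htm l i (mem_filter.1 hi).2
        have h7 := hbm l j (mem_filter.1 hj).2
        linarith
      have h6 := h4.trans h5
      rw [← mul_div_assoc, div_le_iff₀ hm'] at h6
      exact h6)
    (by
      intro l m hlm
      obtain ⟨u, hu⟩ := hpair l m hlm (top l) (bot l) (htc l) (hbc l)
      have h4 := hA u
      rw [hu, abs_mul, abs_of_nonneg (hh l)] at h4
      exact h4)
    (by
      have hv : ∀ u : Fin (d + 1) → Fin n, (∀ l, c (u l) = l) → |∑ l, z (u l) * C r e l| ≤ A := by
        intro u hu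
        have h4 := hA u
        simp only [hu] at h4
        rw [det_add r e (fun l => z (u l)) h0] at h4
        exact h4
      have h4 := hv (fun l => if 0 ≤ C r e l then top l else bot l) (fun l => by
        split_ifs
        · exact htc l
        · exact hbc l)
      have h5 := hv (fun l => if 0 ≤ C r e l then bot l else top l) (fun l => by
        split_ifs
        · exact hbc l
        · exact htc l)
      have h6 : ∑ l, (z (top l) - z (bot l)) * |C r e l| =
          ∑ l, z (if 0 ≤ C r e l then top l else bot l) * C r e l -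
            ∑ l, z (if 0 ≤ C r e l then bot l else top l) * C r e l := by
        rw [← Finset.sum_sub_distrib]
        refine Finset.sum_congr rfl fun l _ => ?_
        by_cases h7 : 0 ≤ C r e l
        · rw [if_pos h7, if_pos h7, abs_of_nonneg h7]
          ring
        · rw [if_neg h7, if_neg h7, abs_of_neg (not_le.1 h7)]
          ring
      rw [h6]
      have h7 := abs_le.1 h4
      have h8 := abs_le.1 h5
      linarith [h7.2, h8.1])
  have hcard : ∑ l, (((univ.filter fun i => c i = l).card : ℝ) - 1) = (n : ℝ) - d - 1 := by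
    rw [Finset.sum_sub_distrib, ← Nat.cast_sum,
      ← Finset.card_eq_sum_card_fiberwise (f := c) (s := univ) (t := univ) (fun i _ => by simp)]
    simp
    ring
  rw [hcard] at hineq
  exact hineq

end H2P
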