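import Pool.Agent.Lib.H2P.L

/-!
# Configurations on d parallel lines (MP_280848_co)
-/

set_option autoImplicit false

namespace H2P

open Finset

theorem main_d {d n : ℕ} (hd : 1 ≤ d) (X : Fin n → Fin d → ℝ) (hX : Function.Injective X)
    (w : Fin d → ℝ) (hw : w ≠ 0) (c : Fin n → Fin d) (hc : Function.Surjective c)
    (hl : ∀ i j, c i = c j ↔ ∃ t : ℝ, X i - X j = t • w) (a A : ℝ)
    (hA : ∀ u : Fin (d + 1) → Fin n,
      |(Matrix.of fun i j : Fin d => X (u i.succ) j - X (u 0) j).det| ≤ A)
    (hmin : ∀ u : Fin (d + 1) → Fin n, (Matrix.of fun i j : Fin d => X (u i.succ) j - X (u 0) j).det ≠ 0 →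
      a ≤ |(Matrix.of fun i j : Fin d => X (u i.succ) j - X (u 0) j).det|)
    (hne : ∃ u : Fin (d + 1) → Fin n, (Matrix.of fun i j : Fin d => X (u i.succ) j - X (u 0) j).det ≠ 0)
    (ha : 0 ≤ a) :
    (((n - 1) / d : ℕ) : ℝ) * a ≤ A := by
  classical
  obtain ⟨p, hp⟩ := Function.ne_iff.1 hw
  rw [Pi.zero_apply] at hp
  choose ρ hρ using hc
  set z : Fin n → ℝ := fun i => X i p / w p with hz
  set P : Fin d → Fin d → ℝ := fun l => X (ρ l) - z (ρ l) • w with hP
  have hdiff : ∀ i j, c i = c j → X i - X j = (z i - z j) • w := by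
    intro i j hij
    obtain ⟨t, ht⟩ := (hl i j).1 hij
    have h1 := congrFun ht p
    simp only [Pi.sub_apply, Pi.smul_apply, smul_eq_mul] at h1
    have h2 : t = z i - z j := by
      rw [hz]
      simp only
      rw [← sub_div, h1, mul_div_cancel_right₀ _ hp]
    rw [ht, h2]
  have hXP : ∀ i, X i = P (c i) + z i • w := by
    intro i
    have h1 := hdiff i (ρ (c i)) (hρ (c i)).symm
    rw [sub_smul] at h1
    rw [hP]
    simp only
    have h2 : X i = X (ρ (c i)) + (z i • w - z (ρ (c i)) • w) := by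
      rw [← h1]
      abel
    rw [h2]
    abel
  let l₀ : Fin d := ⟨0, hd⟩
  set r : Fin (d + 1) → Fin (d + 1) → ℝ := Fin.snoc (α := fun _ => Fin (d + 1) → ℝ) (fun l => hm (P l)) (hm (P l₀)) with hr
  have hr1 : ∀ l : Fin d, r l.castSucc = hm (P l) := fun l => by rw [hr, Fin.snoc_castSucc]
  have hr2 : r (Fin.last d) = hm (P l₀) := by rw [hr, Fin.snoc_last]
  set e : Fin (d + 1) → ℝ := ev w with he
  have hrow : ∀ i, hm (X i) = r (c i).castSucc + z i • e := by
    intro i
    rw [hXP i, hm_add, hr1]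
  have h0 : (Matrix.of r).det = 0 := by
    refine Matrix.det_zero_of_row_eq (i := l₀.castSucc) (j := Fin.last d) (Fin.castSucc_ne_last l₀) ?_
    exact (hr1 l₀).trans hr2.symm
  have hT : ∀ u : Fin (d + 1) → Fin n,
      (Matrix.of fun i j : Fin d => X (u i.succ) j - X (u 0) j).det =
        (Matrix.of fun i => r (c (u i)).castSucc + z (u i) • e).det := by
    intro u
    rw [← D_diffs fun i => X (u i)]
    congr 1
    ext i j
    rw [Matrix.of_apply, Matrix.of_apply, hrow]
  simp only [hT] at hA hmin hne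
  have hV : C r e (Fin.last d) ≠ 0 := by
    intro hV
    obtain ⟨u, hu⟩ := hne
    obtain ⟨m, hm'⟩ := exists_C r e h0 (fun i => (c (u i)).castSucc) (fun i => z (u i)) hu
    have h1 : ∀ k, k ≠ l₀.castSucc → C r e k = 0 := by
      intro k hk
      by_cases hk' : k = Fin.last d
      · rw [hk', hV]
      · refine Matrix.det_zero_of_row_eq (i := l₀.castSucc) (j := Fin.last d) (Fin.castSucc_ne_last l₀) ?_
        change (if l₀.castSucc = k then e else r l₀.castSucc) = (if Fin.last d = k then e else r (Fin.last d))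
        rw [if_neg (Ne.symm hk), if_neg (Ne.symm hk'), hr1, hr2]
    have h2 := sum_C r e h0 0
    rw [Finset.sum_eq_single l₀.castSucc (fun k _ hk => by rw [h1 k hk, zero_mul])
      (fun h => absurd (mem_univ _) h), hr1] at h2
    have h3 : hm (P l₀) 0 = 1 := rfl
    rw [h3, mul_one] at h2
    by_cases hk : m = l₀.castSucc
    · rw [hk] at hm'
      exact hm' h2
    · exact hm' (h1 m hk)
  -- two points on the line `l`
  have hpair : ∀ l, ∀ i j, c i = l → c j = l → ∃ u : Fin (d + 1) → Fin n,
      (Matrix.of fun k => r (c (u k)).castSucc + z (u k) • e).det = (z i - z j) * C r e (Fin.last d) := by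
    intro l i j hi hj
    refine ⟨fun k => if k = Fin.last d then i else if k = l.castSucc then j else
      if h : k ≠ Fin.last d then ρ (k.castPred h) else i, ?_⟩
    rw [← det_pair r e (fun k => if h : k ≠ Fin.last d then z (ρ (k.castPred h)) else 0)
      (Fin.castSucc_ne_last l) (z i) (z j)]
    congr 1
    ext k b
    by_cases hk : k = Fin.last d
    · simp [hk, hi]
    · by_cases hk' : k = l.castSucc
      · subst hk'
        simp [hj, Fin.castSucc_ne_last]
      · simp [hk, hk', hρ]
  -- a line with many points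
  obtain ⟨l, -, hlc⟩ := Finset.exists_lt_card_fiber_of_mul_lt_card_of_maps_to (s := (univ : Finset (Fin n)))
    (t := (univ : Finset (Fin d))) (f := c) (n := (n - 1) / d) (fun i _ => mem_univ _) (by
      rw [card_univ, card_univ, Fintype.card_fin, Fintype.card_fin]
      have h1 := Nat.mul_div_le (n - 1) d
      have h2 : 0 < n := Fin.pos (ρ l₀)
      omega)
  have hV' : 0 < |C r e (Fin.last d)| := abs_pos.2 hV
  obtain ⟨i, hi, j, hj, -, -, h4⟩ := gap z (a / |C r e (Fin.last d)|) (univ.filter fun i => c i = l)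
    (card_pos.1 (lt_of_le_of_lt (Nat.zero_le _) hlc)) (by
    intro i hi j hj hij
    obtain ⟨u, hu⟩ := hpair l i j (mem_filter.1 hi).2 (mem_filter.1 hj).2
    have h5 : z i - z j ≠ 0 := by
      intro h6
      have h7 := hdiff i j ((mem_filter.1 hi).2.trans (mem_filter.1 hj).2.symm)
      rw [h6, zero_smul, sub_eq_zero] at h7
      exact hij (hX h7)
    have h6 := hmin u (by rw [hu]; exact mul_ne_zero h5 hV)
    rw [hu, abs_mul] at h6
    rw [div_le_iff₀ hV']
    exact h6)
  obtain ⟨u, hu⟩ := hpair l i j (mem_filter.1 hi).2 (mem_filter.1 hj).2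
  have h5 := hA u
  rw [hu, abs_mul] at h5
  rw [← mul_div_assoc, div_le_iff₀ hV'] at h4
  have h6 : (z i - z j) * |C r e (Fin.last d)| ≤ |z i - z j| * |C r e (Fin.last d)| :=
    mul_le_mul_of_nonneg_right (le_abs_self _) hV'.le
  have h7 : (((n - 1) / d : ℕ) : ℝ) ≤ ((univ.filter fun i => c i = l).card : ℝ) - 1 := by
    have h8 : (((n - 1) / d + 1 : ℕ) : ℝ) ≤ ((univ.filter fun i => c i = l).card : ℝ) := by
      exact_mod_cast hlc
    push_cast at h8 ⊢
    linarith
  exact (mul_le_mul_of_nonneg_right h7 ha).trans (h4.trans (h6.trans h5))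

end H2P
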