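import Pool.Agent.Lib.H2P.M
import Pool.Agent.Lib.H2P.N

/-!
# The number of parallel lines which meet a configuration (MP_280848_co)
-/

set_option autoImplicit false

namespace H2P

open Finset Module

/-- A configuration which spans the space meets at least `d` lines of each direction. -/
theorem lines_ge {d n k : ℕ} (X : Fin n → Fin d → ℝ) (w : Fin d → ℝ) (c : Fin n → Fin k)
    (hc : Function.Surjective c) (hl : ∀ i j, c i = c j → ∃ t : ℝ, X i - X j = t • w)
    (hne : ∃ u : Fin (d + 1) → Fin n, (Matrix.of fun i j : Fin d => X (u i.succ) j - X (u 0) j).det ≠ 0) :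
    d ≤ k := by
  classical
  choose ρ hρ using hc
  obtain ⟨u, hu⟩ := hne
  rw [← D_diffs fun i => X (u i)] at hu
  have h1 : LinearIndependent ℝ (fun i => hm (X (u i))) := Matrix.linearIndependent_rows_of_det_ne_zero hu
  let v : Option (Fin k) → Fin (d + 1) → ℝ := fun o => o.elim (ev w) fun l => hm (X (ρ l))
  have h2 : Submodule.span ℝ (Set.range fun i => hm (X (u i))) ≤ Submodule.span ℝ (Set.range v) := by
    rw [Submodule.span_le]
    rintro _ ⟨i, rfl⟩
    obtain ⟨t, ht⟩ := hl (u i) (ρ (c (u i))) (hρ _).symm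
    have h3 : X (u i) = X (ρ (c (u i))) + t • w := by
      rw [← ht]
      abel
    have h4 : hm (X (u i)) = v (some (c (u i))) + t • v none := by
      rw [h3, hm_add]
      simp only [v, Option.elim]
    simp only [SetLike.mem_coe]
    rw [h4]
    exact Submodule.add_mem _ (Submodule.subset_span ⟨_, rfl⟩)
      (Submodule.smul_mem _ _ (Submodule.subset_span ⟨_, rfl⟩))
  have h3 := Submodule.finrank_mono h2
  rw [finrank_span_eq_card h1, Fintype.card_fin] at h3
  have h4 := finrank_range_le_card (R := ℝ) v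
  unfold Set.finrank at h4
  rw [Fintype.card_option, Fintype.card_fin] at h4
  omega

/-- The lines of the direction `w` through the points of `X`. -/
theorem colouring {d n : ℕ} (X : Fin n → Fin d → ℝ) (w : Fin d → ℝ) (k : ℕ)
    (h : (Set.range fun i => {y : Fin d → ℝ | ∃ t : ℝ, y = X i + t • w}).ncard = k) :
    ∃ c : Fin n → Fin k, Function.Surjective c ∧ ∀ i j, c i = c j ↔ ∃ t : ℝ, X i - X j = t • w := by
  classical
  set f : Fin n → Set (Fin d → ℝ) := fun i => {y : Fin d → ℝ | ∃ t : ℝ, y = X i + t • w} with hf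
  have h1 : Nat.card (Set.range f) = k := h
  let e : Set.range f ≃ Fin k := Finite.equivFinOfCardEq h1
  refine ⟨fun i => e ⟨f i, i, rfl⟩, ?_, ?_⟩
  · intro l
    obtain ⟨i, hi⟩ := (e.symm l).2
    refine ⟨i, ?_⟩
    have h2 : (⟨f i, i, rfl⟩ : Set.range f) = e.symm l := Subtype.ext hi
    simp only [h2, Equiv.apply_symm_apply]
  · intro i j
    have h2 : e ⟨f i, i, rfl⟩ = e ⟨f j, j, rfl⟩ ↔ f i = f j := by
      rw [e.apply_eq_iff_eq, Subtype.mk.injEq]
    simp only
    rw [h2]
    constructor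
    · intro h3
      have h4 : X i ∈ f i := ⟨0, by rw [zero_smul, add_zero]⟩
      rw [h3] at h4
      obtain ⟨t, ht⟩ := h4
      exact ⟨t, by rw [ht]; abel⟩
    · rintro ⟨t, ht⟩
      have h3 : X i = X j + t • w := by rw [← ht]; abel
      ext y
      constructor
      · rintro ⟨s, hs⟩
        exact ⟨t + s, by rw [hs, h3, add_smul]; abel⟩
      · rintro ⟨s, hs⟩
        exact ⟨s - t, by rw [hs, h3, sub_smul]; abel⟩

theorem arith {d n : ℕ} (hd : 3 ≤ d) (hn : d ^ 2 - d + 2 ≤ n) :
    (((n - 1) / d : ℕ) : ℝ) ≤ ((n : ℝ) - d - 1) / (d - 1) := by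
  have h1 := Nat.div_add_mod (n - 1) d
  have h2 := Nat.mod_lt (n - 1) (by omega : 0 < d)
  set q := (n - 1) / d with hq
  set s := (n - 1) % d with hs
  obtain ⟨e, rfl⟩ : ∃ e, d = e + 1 := ⟨d - 1, by omega⟩
  have h3 : (e + 1) ^ 2 - (e + 1) = (e + 1) * e := by
    rw [pow_two, Nat.mul_succ]
    omega
  rw [h3] at hn
  have h4 : e + 1 ≤ q + s := by
    by_contra hcon
    have h5 : q ≤ e := by omega
    have h6 : (e + 1) * q + s ≤ (e + 1) * e := by
      nlinarith
    omega
  have h5 : q * e + (e + 1) + 1 ≤ n := by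
    have h6 : (e + 1) * q + s + 1 = n := by omega
    nlinarith
  have h6 : (q : ℝ) * e + (e + 1) + 1 ≤ n := by exact_mod_cast h5
  have h7 : (0 : ℝ) < e := by exact_mod_cast (by omega : 0 < e)
  push_cast
  rw [add_sub_cancel_right, le_div_iff₀ h7]
  linarith

theorem arith_lt {d n : ℕ} (hd : 3 ≤ d) (hn : d ^ 2 + 2 ≤ n) :
    ((n : ℝ) - 1) / d < ((n : ℝ) - d - 1) / (d - 1) := by
  have h1 : (3 : ℝ) ≤ d := by exact_mod_cast hd
  have h2 : (d : ℝ) ^ 2 + 2 ≤ n := by exact_mod_cast hn
  rw [div_lt_div_iff₀ (by linarith) (by linarith)]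
  nlinarith

end H2P
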