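import Pool.Agent.Lib.H49SV.G
import Pool.Agent.Lib.H2P.O

/-!
# Subsets of a configuration on few parallel lines (MP_280848_co)
-/

set_option autoImplicit false

namespace H2P

open Finset Module

/-- The number of lines of the direction `w` through the points `X i`, `i ∈ J`. -/
noncomputable def lc {d n : ℕ} (X : Fin n → Fin d → ℝ) (w : Fin d → ℝ) (J : Finset (Fin n)) : ℕ :=
  ((fun i => {y : Fin d → ℝ | ∃ t : ℝ, y = X i + t • w}) '' (J : Set (Fin n))).ncard

theorem sub {d n : ℕ} (hd : 3 ≤ d) (X : Fin n → Fin d → ℝ) (hX : Function.Injective X)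
    (w : Fin d → ℝ) (hw : w ≠ 0) (J : Finset (Fin n)) (hJ : affineSpan ℝ (X '' (J : Set (Fin n))) = ⊤)
    (a A : ℝ) (ha : 0 < a)
    (hA : ∀ u : Fin (d + 1) → Fin n,
      |(Matrix.of fun i j : Fin d => X (u i.succ) j - X (u 0) j).det| ≤ A)
    (hmin : ∀ u : Fin (d + 1) → Fin n, (Matrix.of fun i j : Fin d => X (u i.succ) j - X (u 0) j).det ≠ 0 →
      a ≤ |(Matrix.of fun i j : Fin d => X (u i.succ) j - X (u 0) j).det|) :
    d ≤ lc X w J ∧ (lc X w J = d → (((J.card - 1) / d : ℕ) : ℝ) * a ≤ A) ∧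
      (lc X w J = d + 1 → ((J.card : ℝ) - d - 1) * a ≤ (d - 1) * A) := by
  classical
  set ι : Fin J.card ↪o Fin n := J.orderEmbOfFin rfl with hι
  set Y : Fin J.card → Fin d → ℝ := fun i => X (ι i) with hY
  have hr : Set.range Y = X '' (J : Set (Fin n)) := by
    have h1 : Y = X ∘ ι := rfl
    rw [h1, Set.range_comp, hι, Finset.range_orderEmbOfFin]
  have hYi : Function.Injective Y := fun i j h => ι.injective (hX h)
  have hlc : (Set.range fun i => {y : Fin d → ℝ | ∃ t : ℝ, y = Y i + t • w}).ncard = lc X w J := by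
    have h1 : (fun i => {y : Fin d → ℝ | ∃ t : ℝ, y = Y i + t • w}) =
        (fun i => {y : Fin d → ℝ | ∃ t : ℝ, y = X i + t • w}) ∘ ι := rfl
    rw [h1, Set.range_comp, hι, Finset.range_orderEmbOfFin, lc]
  have hne : ∃ u : Fin (d + 1) → Fin J.card,
      (Matrix.of fun i j : Fin d => Y (u i.succ) j - Y (u 0) j).det ≠ 0 :=
    Pool.Agent.Lib.H49SV.exists_simplex J.card Y (by rw [hr]; exact hJ)
  refine ⟨?_, fun hk => ?_, fun hk => ?_⟩
  · obtain ⟨c, hc, hl⟩ := colouring Y w _ hlc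
    exact lines_ge Y w c hc (fun i j h => (hl i j).1 h) hne
  · obtain ⟨c, hc, hl⟩ := colouring Y w d (hlc.trans hk)
    exact main_d (by omega) Y hYi w hw c hc hl a A (fun u => hA fun i => ι (u i))
      (fun u hu => hmin (fun i => ι (u i)) hu) hne ha.le
  · obtain ⟨c, hc, hl⟩ := colouring Y w (d + 1) (hlc.trans hk)
    exact main hd Y hYi w hw c hc hl a A ha (fun u => hA fun i => ι (u i))
      (fun u hu => hmin (fun i => ι (u i)) hu) hne

/-- If not all points lie on the lines of `J` then one more line can be added. -/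
theorem exists_insert {d n : ℕ} (X : Fin n → Fin d → ℝ) (w : Fin d → ℝ) (J : Finset (Fin n))
    (hJ : affineSpan ℝ (X '' (J : Set (Fin n))) = ⊤) (h : lc X w univ ≠ lc X w J) :
    ∃ J' : Finset (Fin n), affineSpan ℝ (X '' (J' : Set (Fin n))) = ⊤ ∧ lc X w J' = lc X w J + 1 ∧
      J'.card = J.card + 1 := by
  classical
  set f : Fin n → Set (Fin d → ℝ) := fun i => {y : Fin d → ℝ | ∃ t : ℝ, y = X i + t • w} with hf
  obtain ⟨i, hi⟩ : ∃ i, f i ∉ f '' (J : Set (Fin n)) := by
    by_contra hcon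
    push Not at hcon
    apply h
    have h1 : f '' ((univ : Finset (Fin n)) : Set (Fin n)) = f '' (J : Set (Fin n)) := by
      apply Set.Subset.antisymm
      · rintro _ ⟨j, -, rfl⟩
        exact hcon j
      · exact Set.image_mono (by simp)
    rw [lc, lc, ← hf, h1]
  have hiJ : i ∉ J := fun h1 => hi ⟨i, h1, rfl⟩
  refine ⟨insert i J, ?_, ?_, card_insert_of_notMem hiJ⟩
  · refine top_le_iff.1 ?_
    rw [← hJ]
    exact affineSpan_mono ℝ (Set.image_mono (by simp))
  · rw [lc, lc, ← hf, coe_insert, Set.image_insert_eq, Set.ncard_insert_of_notMem hi (Set.toFinite _)]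

theorem arith_sub {d n j : ℕ} (hd : 3 ≤ d) (hj : (d - 1) * n + d ^ 2 + 2 ≤ d * j) :
    ((n : ℝ) - 1) / d < ((j : ℝ) - d - 1) / (d - 1) := by
  obtain ⟨e, rfl⟩ : ∃ e, d = e + 1 := ⟨d - 1, by omega⟩
  have h1 : (2 : ℝ) ≤ e := by exact_mod_cast (by omega : 2 ≤ e)
  have h2 : (e : ℝ) * n + (e + 1) ^ 2 + 2 ≤ (e + 1) * j := by
    rw [Nat.add_sub_cancel] at hj
    exact_mod_cast hj
  push_cast
  rw [div_lt_div_iff₀ (by linarith) (by linarith)]
  nlinarith

end H2P
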