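import Pool.Agent.Lib.H2P.M

/-!
# Configurations on d + 2 parallel lines (MP_280848_co)
-/

set_option autoImplicit false

namespace H2P

open Finset

theorem ineqU {k : ℕ} (C h N : Fin k → ℝ) (U : Finset (Fin k)) (hU : 4 ≤ U.card) (a A : ℝ) (ha : 0 < a)
    (hN : ∀ l, 0 ≤ N l) (hh : ∀ l, 0 ≤ h l) (hsum : ∑ l ∈ U, C l = 0)
    (h3 : ∃ i ∈ U, ∃ j ∈ U, ∃ k ∈ U, i ≠ j ∧ i ≠ k ∧ j ≠ k ∧ C i ≠ 0 ∧ C j ≠ 0 ∧ C k ≠ 0)
    (h1 : ∀ l ∈ U, ∀ m ∈ U, l ≠ m → C m ≠ 0 → N l * a ≤ h l * |C m|)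
    (h2 : ∀ l ∈ U, ∀ m ∈ U, l ≠ m → h l * |C m| ≤ A)
    (h4 : ∑ l ∈ U, h l * |C l| ≤ 2 * A) : (∑ l ∈ U, N l) * a ≤ ((U.card : ℝ) - 2) * A := by
  classical
  obtain ⟨d, hd⟩ : ∃ d, U.card = d + 1 := ⟨U.card - 1, by omega⟩
  let e : U ≃ Fin (d + 1) := U.equivFinOfCardEq hd
  have hs : ∀ f : Fin k → ℝ, ∑ i : Fin (d + 1), f (e.symm i) = ∑ l ∈ U, f l := by
    intro f
    rw [Equiv.sum_comp e.symm (fun x : U => f x), Finset.sum_coe_sort U f]
  have hne : ∀ i j : Fin (d + 1), i ≠ j → (e.symm i : Fin k) ≠ e.symm j := by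
    intro i j hij h
    exact hij (e.symm.injective (Subtype.ext h))
  have h := ineq d (by omega) (fun i => C (e.symm i)) (fun i => h (e.symm i)) (fun i => N (e.symm i)) a A ha
    (fun i => hN _) (fun i => hh _) (by rw [hs C]; exact hsum) (by
      obtain ⟨i, hi, j, hj, k, hk, e1, e2, e3, e4, e5, e6⟩ := h3
      refine ⟨e ⟨i, hi⟩, e ⟨j, hj⟩, e ⟨k, hk⟩, ?_, ?_, ?_, ?_, ?_, ?_⟩
      · exact fun h => e1 (congrArg Subtype.val (e.injective h))
      · exact fun h => e2 (congrArg Subtype.val (e.injective h))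
      · exact fun h => e3 (congrArg Subtype.val (e.injective h))
      · simpa using e4
      · simpa using e5
      · simpa using e6)
    (fun l m hlm hm => h1 _ (e.symm l).2 _ (e.symm m).2 (hne l m hlm) hm)
    (fun l m hlm => h2 _ (e.symm l).2 _ (e.symm m).2 (hne l m hlm))
    (by rw [hs fun l => h l * |C l|]; exact h4)
  rw [hs N] at h
  refine h.trans (le_of_eq ?_)
  rw [hd]
  push_cast
  ring

/-- The counting for `d + 2` lines. `V l m` is the volume over the lines except `l` and `m`. -/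
theorem count {d : ℕ} (hd : 3 ≤ d) (N : Fin (d + 2) → ℝ) (a A : ℝ) (ha : 0 < a) (hA : 0 ≤ A) (hN : ∀ l, 0 ≤ N l)
    (Q : Finset (Fin (d + 2))) (hQ : 4 ≤ Q.card) (h1 : ∀ k, k ∉ Q → N k * a ≤ A)
    (h2 : ∀ W : Finset (Fin (d + 2)), Q ⊆ W → ∀ l ∈ Q, 4 ≤ (W.erase l).card →
      (∑ k ∈ W.erase l, N k) * a ≤ (((W.erase l).card : ℝ) - 2) * A) :
    (∑ l, N l) * a * d ≤ ((d : ℝ) ^ 2 - 1) * A := by
  classical
  have hd' : (3 : ℝ) ≤ d := by exact_mod_cast hd
  have hQc : Q.card ≤ d + 2 := by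
    have := card_le_univ Q
    rwa [Fintype.card_fin] at this
  have hsplit : ∑ l, N l = ∑ l ∈ Q, N l + ∑ l ∈ univ \ Q, N l := by
    have h := Finset.sum_sdiff (f := N) (subset_univ Q)
    linarith
  have hKcard : (((univ : Finset (Fin (d + 2))) \ Q).card : ℝ) = d + 2 - Q.card := by
    rw [card_sdiff_of_subset (subset_univ Q), card_univ, Fintype.card_fin, Nat.cast_sub hQc]
    push_cast
    ring
  rcases Nat.eq_or_lt_of_le hQ with h4 | h5
  · -- four noncoloops
    obtain ⟨k, hk⟩ : ∃ k, k ∉ Q := by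
      by_contra hcon
      push Not at hcon
      have h5 : (univ : Finset (Fin (d + 2))).card ≤ Q.card := card_le_card fun x _ => hcon x
      rw [card_univ, Fintype.card_fin] at h5
      omega
    have h5 : ∀ l ∈ Q, (∑ k' ∈ Q, N k' + N k - N l) * a ≤ 2 * A := by
      intro l hl
      have hc : ((insert k Q).erase l).card = 4 := by
        rw [card_erase_of_mem (mem_insert_of_mem hl), card_insert_of_notMem hk, ← h4]
      have h6 := h2 (insert k Q) (subset_insert k Q) l hl (by rw [hc])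
      have h7 : ∑ k' ∈ (insert k Q).erase l, N k' = ∑ k' ∈ Q, N k' + N k - N l := by
        have := Finset.add_sum_erase (insert k Q) N (mem_insert_of_mem hl)
        rw [Finset.sum_insert hk] at this
        linarith
      rw [hc, h7] at h6
      norm_num at h6
      exact h6
    have h6 : ∑ l ∈ Q, (∑ k' ∈ Q, N k' + N k - N l) * a ≤ ∑ l ∈ Q, 2 * A := Finset.sum_le_sum h5
    rw [← Finset.sum_mul, Finset.sum_sub_distrib, Finset.sum_const, Finset.sum_const, ← h4] at h6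
    simp only [nsmul_eq_mul] at h6
    push_cast at h6
    have h7 : ∑ l ∈ (univ \ Q).erase k, N l * a ≤ ∑ l ∈ (univ \ Q).erase k, A := by
      refine Finset.sum_le_sum fun l hl => h1 l ?_
      rw [mem_erase, mem_sdiff] at hl
      exact hl.2.2
    have hkQ : k ∈ (univ : Finset (Fin (d + 2))) \ Q := mem_sdiff.2 ⟨mem_univ k, hk⟩
    have h8 : (((univ \ Q).erase k).card : ℝ) = d - 3 := by
      rw [card_erase_of_mem hkQ, Nat.cast_sub (card_pos.2 ⟨k, hkQ⟩), hKcard, ← h4]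
      push_cast
      ring
    rw [← Finset.sum_mul, Finset.sum_const, nsmul_eq_mul, h8] at h7
    have h9 := Finset.add_sum_erase (univ \ Q) N hkQ
    have h10 : 0 ≤ N k * a := mul_nonneg (hN k) ha.le
    have h11 : (∑ l, N l) * a * 3 ≤ (3 * d - 1) * A := by
      rw [hsplit, ← h9]
      nlinarith
    nlinarith
  · have h6 : ∀ l ∈ Q, (∑ k ∈ Q, N k - N l) * a ≤ ((Q.card : ℝ) - 3) * A := by
      intro l hl
      have hc : (Q.erase l).card = Q.card - 1 := card_erase_of_mem hl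
      have h7 := h2 Q (Subset.refl Q) l hl (by rw [hc]; omega)
      have h8 : ∑ k ∈ Q.erase l, N k = ∑ k ∈ Q, N k - N l := by
        have := Finset.add_sum_erase Q N hl
        linarith
      rw [hc, h8, Nat.cast_sub (by omega)] at h7
      refine h7.trans (le_of_eq ?_)
      push_cast
      ring
    have h7 : ∑ l ∈ Q, (∑ k ∈ Q, N k - N l) * a ≤ ∑ l ∈ Q, ((Q.card : ℝ) - 3) * A := Finset.sum_le_sum h6
    rw [← Finset.sum_mul, Finset.sum_sub_distrib, Finset.sum_const, Finset.sum_const, nsmul_eq_mul,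
      nsmul_eq_mul] at h7
    have h8 : ∑ l ∈ univ \ Q, N l * a ≤ ∑ l ∈ univ \ Q, A :=
      Finset.sum_le_sum fun l hl => h1 l (mem_sdiff.1 hl).2
    rw [← Finset.sum_mul, Finset.sum_const, nsmul_eq_mul, hKcard] at h8
    have hq : (5 : ℝ) ≤ Q.card := by exact_mod_cast h5
    have hq2 : (Q.card : ℝ) ≤ d + 2 := by exact_mod_cast hQc
    set q : ℝ := (Q.card : ℝ) with hqdef
    set S := ∑ k ∈ Q, N k with hS
    set T := ∑ l ∈ univ \ Q, N l with hT
    have h9 : (q - 1) * ((S + T) * a) ≤ ((q - 1) * d - 2) * A := by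
      have e1 : (q * S - S) * a ≤ q * ((q - 3) * A) := h7
      have e2 : (q - 1) * (T * a) ≤ (q - 1) * ((d + 2 - q) * A) := mul_le_mul_of_nonneg_left h8 (by linarith)
      nlinarith
    have h10 : d * ((q - 1) * ((S + T) * a)) ≤ d * (((q - 1) * d - 2) * A) :=
      mul_le_mul_of_nonneg_left h9 (by linarith)
    have h11 : (d : ℝ) * (((q - 1) * d - 2) * A) ≤ (q - 1) * (((d : ℝ) ^ 2 - 1) * A) := by
      have e1 : 0 ≤ (2 * (d : ℝ) - (q - 1)) * A := mul_nonneg (by linarith) hA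
      nlinarith
    rw [hsplit]
    have h12 : (q - 1) * ((S + T) * a * d) ≤ (q - 1) * (((d : ℝ) ^ 2 - 1) * A) := by linarith
    exact le_of_mul_le_mul_left h12 (by linarith)

end H2P
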