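import Pool.Agent.Lib.H2P.R

/-!
# The bound for configurations on d + 2 parallel lines (MP_280848_co)
-/

set_option autoImplicit false

namespace H2P

open Finset

theorem main_two {d n : ℕ} (hd : 3 ≤ d) (X : Fin n → Fin d → ℝ) (hX : Function.Injective X)
    (w : Fin d → ℝ) (hw : w ≠ 0) (c : Fin n → Fin (d + 2)) (hc : Function.Surjective c)
    (hl : ∀ i j, c i = c j ↔ ∃ t : ℝ, X i - X j = t • w) (a A : ℝ) (ha : 0 < a)
    (hA : ∀ u : Fin (d + 1) → Fin n,
      |(Matrix.of fun i j : Fin d => X (u i.succ) j - X (u 0) j).det| ≤ A)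
    (hmin : ∀ u : Fin (d + 1) → Fin n, (Matrix.of fun i j : Fin d => X (u i.succ) j - X (u 0) j).det ≠ 0 →
      a ≤ |(Matrix.of fun i j : Fin d => X (u i.succ) j - X (u 0) j).det|)
    (hne : ∃ u : Fin (d + 1) → Fin n, (Matrix.of fun i j : Fin d => X (u i.succ) j - X (u 0) j).det ≠ 0) :
    ((n : ℝ) - d - 2) * a * d ≤ ((d : ℝ) ^ 2 - 1) * A := by
  classical
  obtain ⟨p, hp⟩ := Function.ne_iff.1 hw
  rw [Pi.zero_apply] at hp
  choose ρ hρ using hc
  set z : Fin n → ℝ := fun i => X i p / w p with hz
  set P : Fin (d + 2) → Fin d → ℝ := fun l => X (ρ l) - z (ρ l) • w with hP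
  have hdiff : ∀ i j, c i = c j → X i - X j = (z i - z j) • w := by
    intro i j hij
    obtain ⟨t, ht⟩ := (hl i j).1 hij
    have h1 := congrFun ht p
    simp only [Pi.sub_apply, Pi.smul_apply, smul_eq_mul] at h1
    have h2 : t = z i - z j := by
      rw [hz]
      simp only
      rw [← sub_div, h1, mul_div_cancel_right₀ _ hp]
    rw [ht, h2]
  have hXP : ∀ i, X i = P (c i) + z i • w := by
    intro i
    have h1 := hdiff i (ρ (c i)) (hρ (c i)).symm
    rw [sub_smul] at h1
    rw [hP]
    simp only
    have h2 : X i = X (ρ (c i)) + (z i • w - z (ρ (c i)) • w) := by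
      rw [← h1]
      abel
    rw [h2]
    abel
  have hPinj : Function.Injective P := by
    intro l m hlm
    have h1 : X (ρ l) - X (ρ m) = (z (ρ l) - z (ρ m)) • w := by
      rw [sub_smul]
      have h2 := hlm
      simp only [hP] at h2
      have h3 : X (ρ l) = X (ρ m) - z (ρ m) • w + z (ρ l) • w := by
        rw [← h2]
        abel
      rw [h3]
      abel
    have h2 := (hl (ρ l) (ρ m)).2 ⟨_, h1⟩
    rwa [hρ, hρ] at h2
  set r : Fin (d + 2) → Fin (d + 1) → ℝ := fun l => hm (P l) with hr
  set e : Fin (d + 1) → ℝ := ev w with he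
  have hrow : ∀ i, hm (X i) = r (c i) + z i • e := by
    intro i
    rw [hXP i, hm_add]
  have hr0 : ∀ l, r l p.succ = 0 := by
    intro l
    have : X (ρ l) p - X (ρ l) p / w p * w p = 0 := by
      rw [div_mul_cancel₀ _ hp, sub_self]
    simpa [hr, hP, hz, hm] using this
  -- the lines except `l`
  set rl : Fin (d + 2) → Fin (d + 1) → Fin (d + 1) → ℝ := fun l k => r (l.succAbove k) with hrl
  have h0 : ∀ l, (Matrix.of (rl l)).det = 0 := fun l =>
    Matrix.det_eq_zero_of_column_eq_zero p.succ fun k => hr0 _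
  have hT : ∀ u : Fin (d + 1) → Fin n,
      (Matrix.of fun i j : Fin d => X (u i.succ) j - X (u 0) j).det =
        (Matrix.of fun i => r (c (u i)) + z (u i) • e).det := by
    intro u
    rw [← D_diffs fun i => X (u i)]
    congr 1
    ext i j
    rw [Matrix.of_apply, Matrix.of_apply, hrow]
  simp only [hT] at hA hmin hne
  set Q : Finset (Fin (d + 2)) := univ.filter fun l => ∃ m, C (rl l) e m ≠ 0 with hQdef
  have hQ : ∀ l, l ∈ Q ↔ ∃ m, C (rl l) e m ≠ 0 := fun l => by rw [hQdef, mem_filter]; simp
  have memQ : ∀ (κ : Fin (d + 1) → Fin (d + 2)) (y : Fin (d + 1) → ℝ) (k : Fin (d + 2)), (∀ i, κ i ≠ k) →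
      (Matrix.of fun i => r (κ i) + y i • e).det ≠ 0 → k ∈ Q := by
    intro κ y k hk h
    choose κ' hκ' using fun i => Fin.exists_succAbove_eq (hk i)
    rw [hQ]
    refine exists_C (rl k) e (h0 k) κ' y ?_
    simp only [hrl, hκ']
    exact h
  have hQne : Q.Nonempty := by
    obtain ⟨u, hu⟩ := hne
    obtain ⟨k, hk⟩ : ∃ k, k ∉ univ.image fun i => c (u i) := by
      by_contra hcon
      push Not at hcon
      have h1 : (univ : Finset (Fin (d + 2))).card ≤ (univ.image fun i => c (u i)).card :=
        card_le_card fun x _ => hcon x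
      have h2 := card_image_le (s := (univ : Finset (Fin (d + 1)))) (f := fun i => c (u i))
      rw [card_univ, Fintype.card_fin] at h1 h2
      omega
    exact ⟨k, memQ (fun i => c (u i)) (fun i => z (u i)) k (fun i h => hk (mem_image.2 ⟨i, mem_univ i, h⟩)) hu⟩
  have hs1 : ∀ l, ∑ m, C (rl l) e m = 0 := by
    intro l
    have h := sum_C (rl l) e (h0 l) 0
    simpa [hrl, hr, hm] using h
  have hs2 : ∀ l q, ∑ m, C (rl l) e m * P (l.succAbove m) q = 0 := by
    intro l q
    have h := sum_C (rl l) e (h0 l) q.succ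
    simpa [hrl, hr, hm] using h
  have h3 : ∀ l ∈ Q, ∃ i j k, i ≠ j ∧ i ≠ k ∧ j ≠ k ∧ C (rl l) e i ≠ 0 ∧ C (rl l) e j ≠ 0 ∧ C (rl l) e k ≠ 0 :=
    fun l hlQ => three (fun m => P (l.succAbove m)) (fun m m' h => Fin.succAbove_right_injective (hPinj h)) _
      (hs1 l) (hs2 l) ((hQ l).1 hlQ)
  have hcol : ∀ l m, C (rl l) e m ≠ 0 → l.succAbove m ∈ Q := by
    intro l m hlm
    obtain ⟨j, hj⟩ : ∃ j : Fin (d + 1), j ≠ m := by
      haveI : Nontrivial (Fin (d + 1)) := Fin.nontrivial_iff_two_le.2 (by omega)
      exact exists_ne m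
    have h1 := det_pair (rl l) e (fun _ => 0) hj 1 0
    refine memQ (fun i => if i = m then l.succAbove j else l.succAbove i) (fun i => if i = m then 1 else 0) _ ?_ ?_
    · intro i
      by_cases hi : i = m
      · simp only [hi, if_true]
        exact fun h => hj (Fin.succAbove_right_injective h)
      · simp only [hi, if_false]
        exact fun h => hi (Fin.succAbove_right_injective h)
    · have h2 : (Matrix.of fun i => r (if i = m then l.succAbove j else l.succAbove i) +
          (if i = m then (1 : ℝ) else 0) • e) = (Matrix.of fun k => if k = m then rl l j + (1 : ℝ) • e else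
            if k = j then rl l j + (0 : ℝ) • e else rl l k + (0 : ℝ) • e) := by
        ext i b
        by_cases hi : i = m
        · simp [hi, hrl]
        · by_cases hi' : i = j
          · subst hi'
            simp [hi, hrl]
          · simp [hi, hi', hrl]
      rw [h2, h1]
      simpa using hlm
  -- two points on the line `l.succAbove j`
  have hpair : ∀ l j m, j ≠ m → ∀ i i', c i = l.succAbove j → c i' = l.succAbove j → ∃ u : Fin (d + 1) → Fin n,
      (Matrix.of fun k => r (c (u k)) + z (u k) • e).det = (z i - z i') * C (rl l) e m := by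
    intro l j m hjm i i' hi hi'
    refine ⟨fun k => if k = m then i else if k = j then i' else ρ (l.succAbove k), ?_⟩
    rw [← det_pair (rl l) e (fun k => z (ρ (l.succAbove k))) hjm (z i) (z i')]
    congr 1
    ext k b
    by_cases hk : k = m
    · simp [hk, hi, hrl]
    · by_cases hk' : k = j
      · simp [hk', hjm, hi', hrl]
      · simp [hk, hk', hρ, hrl]
  -- the extreme points of the lines
  have hI : ∀ l, (univ.filter fun i => c i = l).Nonempty := fun l => ⟨ρ l, mem_filter.2 ⟨mem_univ _, hρ l⟩⟩
  have htop : ∀ l, ∃ i, c i = l ∧ ∀ k, c k = l → z k ≤ z i := by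
    intro l
    obtain ⟨i, hi, h⟩ := exists_max_image _ z (hI l)
    exact ⟨i, (mem_filter.1 hi).2, fun k hk => h k (mem_filter.2 ⟨mem_univ _, hk⟩)⟩
  have hbot : ∀ l, ∃ i, c i = l ∧ ∀ k, c k = l → z i ≤ z k := by
    intro l
    obtain ⟨i, hi, h⟩ := exists_min_image _ z (hI l)
    exact ⟨i, (mem_filter.1 hi).2, fun k hk => h k (mem_filter.2 ⟨mem_univ _, hk⟩)⟩
  choose top htc htm using htop
  choose bot hbc hbm using hbot
  have hh : ∀ l, 0 ≤ z (top l) - z (bot l) := fun l => by
    have := htm l (bot l) (hbc l)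
    linarith
  have hI1 : ∀ l, (1 : ℝ) ≤ ((univ.filter fun i => c i = l).card : ℝ) := fun l => by
    exact_mod_cast card_pos.2 (hI l)
  set N : Fin (d + 2) → ℝ := fun l => ((univ.filter fun i => c i = l).card : ℝ) - 1 with hN
  set H : Fin (d + 2) → ℝ := fun l => z (top l) - z (bot l) with hH
  have hN0 : ∀ l, 0 ≤ N l := fun l => by
    have := hI1 l
    simp only [hN]
    linarith
  have g1 : ∀ l j m, j ≠ m → C (rl l) e m ≠ 0 → N (l.succAbove j) * a ≤ H (l.succAbove j) * |C (rl l) e m| := by
    intro l j m hjm hm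
    have hm' : 0 < |C (rl l) e m| := abs_pos.2 hm
    obtain ⟨i, hi, i', hi', -, -, h4⟩ := gap z (a / |C (rl l) e m|) (univ.filter fun i => c i = l.succAbove j)
      (hI _) (by
      intro i hi i' hi' hij
      obtain ⟨u, hu⟩ := hpair l j m hjm i i' (mem_filter.1 hi).2 (mem_filter.1 hi').2
      have h5 : z i - z i' ≠ 0 := by
        intro h6
        have h7 := hdiff i i' ((mem_filter.1 hi).2.trans (mem_filter.1 hi').2.symm)
        rw [h6, zero_smul, sub_eq_zero] at h7
        exact hij (hX h7)
      have h6 := hmin u (by rw [hu]; exact mul_ne_zero h5 hm)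
      rw [hu, abs_mul] at h6
      rw [div_le_iff₀ hm']
      exact h6)
    have h5 : z i - z i' ≤ H (l.succAbove j) := by
      have h6 := htm _ i (mem_filter.1 hi).2
      have h7 := hbm _ i' (mem_filter.1 hi').2
      simp only [hH]
      linarith
    have h6 := h4.trans h5
    rw [← mul_div_assoc, div_le_iff₀ hm'] at h6
    exact h6
  have g2 : ∀ l j m, j ≠ m → H (l.succAbove j) * |C (rl l) e m| ≤ A := by
    intro l j m hjm
    obtain ⟨u, hu⟩ := hpair l j m hjm (top _) (bot _) (htc _) (hbc _)
    have h4 := hA u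
    rw [hu, abs_mul, abs_of_nonneg (hh _)] at h4
    exact h4
  have g4 : ∀ l, ∑ j, H (l.succAbove j) * |C (rl l) e j| ≤ 2 * A := by
    intro l
    have hv : ∀ u : Fin (d + 1) → Fin n, (∀ j, c (u j) = l.succAbove j) → |∑ j, z (u j) * C (rl l) e j| ≤ A := by
      intro u hu
      have h4 := hA u
      simp only [hu] at h4
      have h5 := det_add (rl l) e (fun j => z (u j)) (h0 l)
      simp only [hrl] at h5
      rw [h5] at h4
      exact h4
    have h4 := hv (fun j => if 0 ≤ C (rl l) e j then top (l.succAbove j) else bot (l.succAbove j)) (fun j => by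
      split_ifs
      · exact htc _
      · exact hbc _)
    have h5 := hv (fun j => if 0 ≤ C (rl l) e j then bot (l.succAbove j) else top (l.succAbove j)) (fun j => by
      split_ifs
      · exact hbc _
      · exact htc _)
    have h6 : ∑ j, H (l.succAbove j) * |C (rl l) e j| =
        ∑ j, z (if 0 ≤ C (rl l) e j then top (l.succAbove j) else bot (l.succAbove j)) * C (rl l) e j -
          ∑ j, z (if 0 ≤ C (rl l) e j then bot (l.succAbove j) else top (l.succAbove j)) * C (rl l) e j := by
      rw [← Finset.sum_sub_distrib]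
      refine Finset.sum_congr rfl fun j _ => ?_
      by_cases h7 : 0 ≤ C (rl l) e j
      · rw [if_pos h7, if_pos h7, abs_of_nonneg h7]
        simp only [hH]
        ring
      · rw [if_neg h7, if_neg h7, abs_of_neg (not_le.1 h7)]
        simp only [hH]
        ring
    rw [h6]
    have h7 := abs_le.1 h4
    have h8 := abs_le.1 h5
    linarith [h7.2, h8.1]
  have hA0 : 0 ≤ A := by
    obtain ⟨u, -⟩ := hne
    exact (abs_nonneg _).trans (hA u)
  have hQ4 : 4 ≤ Q.card := by
    obtain ⟨l, hlQ⟩ := hQne
    obtain ⟨i, j, k, e1, e2, e3, e4, e5, e6⟩ := h3 l hlQ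
    have h5 : ({l, l.succAbove i, l.succAbove j, l.succAbove k} : Finset (Fin (d + 2))) ⊆ Q := by
      intro x hx
      simp only [mem_insert, mem_singleton] at hx
      rcases hx with rfl | rfl | rfl | rfl
      · exact hlQ
      · exact hcol l i e4
      · exact hcol l j e5
      · exact hcol l k e6
    refine le_trans (le_of_eq ?_) (card_le_card h5)
    rw [card_insert_of_notMem, card_insert_of_notMem, card_insert_of_notMem, card_singleton]
    · simpa using e3
    · simp [e1, e2]
    · simp [Fin.ne_succAbove]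
  have hfin := count hd N a A ha hA0 hN0 Q hQ4 (by
      intro k hk
      obtain ⟨l, hlQ⟩ := hQne
      obtain ⟨m, hm⟩ := (hQ l).1 hlQ
      obtain ⟨j, hj⟩ := Fin.exists_succAbove_eq (fun h => hk (h ▸ hlQ) : k ≠ l)
      have hjm : j ≠ m := by
        rintro rfl
        exact hk (hj ▸ hcol l j hm)
      rw [← hj]
      exact (g1 l j m hjm hm).trans (g2 l j m hjm))
    (by
      intro W hW l hlQ hcard
      set U : Finset (Fin (d + 1)) := univ.filter fun j => l.succAbove j ∈ W with hU
      have hmap : U.map l.succAboveEmb = W.erase l := by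
        ext x
        simp only [mem_map, hU, mem_filter, mem_univ, true_and, mem_erase]
        constructor
        · rintro ⟨j, hj, rfl⟩
          exact ⟨Fin.succAbove_ne l j, hj⟩
        · rintro ⟨h5, h6⟩
          obtain ⟨j, hj⟩ := Fin.exists_succAbove_eq h5
          exact ⟨j, by rw [hj]; exact h6, hj⟩
      have hcU : U.card = (W.erase l).card := by
        rw [← hmap, card_map]
      have hsU : ∑ k ∈ W.erase l, N k = ∑ j ∈ U, N (l.succAbove j) := by
        rw [← hmap, sum_map]
        rfl
      have hz : ∀ j, j ∉ U → C (rl l) e j = 0 := by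
        intro j hj
        by_contra h5
        exact hj (mem_filter.2 ⟨mem_univ _, hW (hcol l j h5)⟩)
      rw [hsU, ← hcU]
      refine ineqU (C (rl l) e) (fun j => H (l.succAbove j)) (fun j => N (l.succAbove j)) U (by rw [hcU]; exact hcard)
        a A ha (fun j => hN0 _) (fun j => hh _) ?_ ?_ (fun j _ m _ hjm hm => g1 l j m hjm hm)
        (fun j _ m _ hjm => g2 l j m hjm) ?_
      · rw [← hs1 l]
        exact Finset.sum_subset (subset_univ U) fun j _ hj => hz j hj
      · obtain ⟨i, j, k, e1, e2, e3, e4, e5, e6⟩ := h3 l hlQ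
        have hmem : ∀ j, C (rl l) e j ≠ 0 → j ∈ U := fun j hj => by
          by_contra h5
          exact hj (hz j h5)
        exact ⟨i, hmem i e4, j, hmem j e5, k, hmem k e6, e1, e2, e3, e4, e5, e6⟩
      · exact le_trans (Finset.sum_le_univ_sum_of_nonneg fun j => mul_nonneg (hh _) (abs_nonneg _)) (g4 l))
  have hcard : ∑ l, N l = (n : ℝ) - d - 2 := by
    simp only [hN]
    rw [Finset.sum_sub_distrib, ← Nat.cast_sum,
      ← Finset.card_eq_sum_card_fiberwise (f := c) (s := univ) (t := univ) (fun i _ => by simp)]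
    simp
    ring
  rw [hcard] at hfin
  exact hfin

end H2P
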