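import Pool.Agent.Lib.H2P.Q
import Pool.Agent.Lib.H2P.T

/-!
# Subsets of a configuration on d + 2 parallel lines (MP_280848_co)
-/

set_option autoImplicit false

namespace H2P

open Finset Module

theorem sub_two {d n : ℕ} (hd : 3 ≤ d) (X : Fin n → Fin d → ℝ) (hX : Function.Injective X)
    (w : Fin d → ℝ) (hw : w ≠ 0) (J : Finset (Fin n)) (hJ : affineSpan ℝ (X '' (J : Set (Fin n))) = ⊤)
    (a A : ℝ) (ha : 0 < a)
    (hA : ∀ u : Fin (d + 1) → Fin n,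
      |(Matrix.of fun i j : Fin d => X (u i.succ) j - X (u 0) j).det| ≤ A)
    (hmin : ∀ u : Fin (d + 1) → Fin n, (Matrix.of fun i j : Fin d => X (u i.succ) j - X (u 0) j).det ≠ 0 →
      a ≤ |(Matrix.of fun i j : Fin d => X (u i.succ) j - X (u 0) j).det|)
    (hk : lc X w J = d + 2) : ((J.card : ℝ) - d - 2) * a * d ≤ ((d : ℝ) ^ 2 - 1) * A := by
  classical
  set ι : Fin J.card ↪o Fin n := J.orderEmbOfFin rfl with hι
  set Y : Fin J.card → Fin d → ℝ := fun i => X (ι i) with hY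
  have hr : Set.range Y = X '' (J : Set (Fin n)) := by
    have h1 : Y = X ∘ ι := rfl
    rw [h1, Set.range_comp, hι, Finset.range_orderEmbOfFin]
  have hYi : Function.Injective Y := fun i j h => ι.injective (hX h)
  have hlc : (Set.range fun i => {y : Fin d → ℝ | ∃ t : ℝ, y = Y i + t • w}).ncard = lc X w J := by
    have h1 : (fun i => {y : Fin d → ℝ | ∃ t : ℝ, y = Y i + t • w}) =
        (fun i => {y : Fin d → ℝ | ∃ t : ℝ, y = X i + t • w}) ∘ ι := rfl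
    rw [h1, Set.range_comp, hι, Finset.range_orderEmbOfFin, lc]
  have hne : ∃ u : Fin (d + 1) → Fin J.card,
      (Matrix.of fun i j : Fin d => Y (u i.succ) j - Y (u 0) j).det ≠ 0 :=
    Pool.Agent.Lib.H49SV.exists_simplex J.card Y (by rw [hr]; exact hJ)
  obtain ⟨c, hc, hl⟩ := colouring Y w (d + 2) (hlc.trans hk)
  exact main_two hd Y hYi w hw c hc hl a A ha (fun u => hA fun i => ι (u i))
    (fun u hu => hmin (fun i => ι (u i)) hu) hne

theorem arith_two {d n j : ℕ} (hd : 3 ≤ d) (hj : (d ^ 2 - 1) * n + d ^ 3 + d ^ 2 + 2 ≤ d ^ 2 * j) :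
    ((n : ℝ) - 1) / d < d * ((j : ℝ) - d - 2) / ((d : ℝ) ^ 2 - 1) := by
  have h0 : 1 ≤ d ^ 2 := Nat.one_le_pow _ _ (by omega)
  have h1 : (3 : ℝ) ≤ d := by exact_mod_cast hd
  have h2 : ((d : ℝ) ^ 2 - 1) * n + (d : ℝ) ^ 3 + (d : ℝ) ^ 2 + 2 ≤ (d : ℝ) ^ 2 * j := by
    have h3 : (((d ^ 2 - 1) * n + d ^ 3 + d ^ 2 + 2 : ℕ) : ℝ) ≤ ((d ^ 2 * j : ℕ) : ℝ) := by exact_mod_cast hj
    push_cast [Nat.cast_sub h0] at h3
    exact h3
  rw [div_lt_div_iff₀ (by linarith) (by nlinarith)]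
  nlinarith

theorem cond_two {d n j : ℕ} (hd : 3 ≤ d) (hj : (d ^ 2 - 1) * n + d ^ 3 + d ^ 2 + 2 ≤ d ^ 2 * j) :
    (d - 1) * n + d ^ 2 + 2 ≤ d * j := by
  obtain ⟨e, rfl⟩ : ∃ e, d = e + 1 := ⟨d - 1, by omega⟩
  have h1 : (e + 1) ^ 2 - 1 = e * (e + 2) := by
    have : (e + 1) ^ 2 = e * (e + 2) + 1 := by ring
    omega
  rw [h1] at hj
  rw [Nat.add_sub_cancel]
  have h2 : (e + 1) * (e * n + (e + 1) ^ 2 + 2) ≤ (e + 1) * ((e + 1) * j) := by
    nlinarith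
  exact Nat.le_of_mul_le_mul_left h2 (by omega)

end H2P
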