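import Pool.Agent.Lib.H2P.M

/-!
# Parallel lines in general position (MP_280848_co)
-/

set_option autoImplicit false

namespace H2P

open Finset

/-- All cofactors are nonzero. -/
theorem part_all {d : ℕ} (hd : 1 ≤ d) (C h N : Fin (d + 1) → ℝ) (a A : ℝ) (hh : ∀ l, 0 ≤ h l) (hC : ∀ l, C l ≠ 0)
    (h1 : ∀ l m, l ≠ m → N l * a ≤ h l * |C m|) (h2 : ∀ l m, l ≠ m → h l * |C m| ≤ A)
    (h4 : ∑ l, h l * |C l| ≤ 2 * A) : (∑ l, N l) * a ≤ 2 * A := by
  classical
  obtain ⟨i₁, hi₁, hm₁⟩ := exists_min_image (univ : Finset (Fin (d + 1))) (fun l => |C l|) ⟨0, mem_univ _⟩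
  have hne : (univ.erase i₁).Nonempty := by
    rw [← card_pos, card_erase_of_mem hi₁, card_univ, Fintype.card_fin]
    omega
  obtain ⟨i₂, hi₂, hm₂⟩ := exists_min_image (univ.erase i₁) (fun l => |C l|) hne
  exact part_S C h N a A hh (fun l m hlm _ => h1 l m hlm) h2 h4 (fun l => by simp [hC l]) hi₁ hi₂ hm₁ hm₂

/-- The determinant of `d` lines which do not lie in a hyperplane. -/
theorem det_gp {d : ℕ} (hd : 1 ≤ d) (P : Fin (d + 1) → Fin d → ℝ) (w : Fin d → ℝ) (m : Fin (d + 1))
    (h : ∀ φ : (Fin d → ℝ) →ₗ[ℝ] ℝ, φ ≠ 0 → φ w = 0 → ∃ i j, i ≠ m ∧ j ≠ m ∧ φ (P i) ≠ φ (P j)) :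
    C (fun l => hm (P l)) (ev w) m ≠ 0 := by
  intro h0
  rw [C] at h0
  obtain ⟨v, hv, hM⟩ := Matrix.exists_mulVec_eq_zero_iff.2 h0
  let φ : (Fin d → ℝ) →ₗ[ℝ] ℝ :=
    { toFun := fun y => ∑ j, v j.succ * y j
      map_add' := fun x y => by
        simp only [Pi.add_apply, mul_add, sum_add_distrib]
      map_smul' := fun t x => by
        simp only [Pi.smul_apply, smul_eq_mul, RingHom.id_apply, mul_sum]
        refine sum_congr rfl fun j _ => ?_
        ring }
  have hφ : ∀ y, φ y = ∑ j, v j.succ * y j := fun y => rfl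
  have hrow : ∀ i, i ≠ m → v 0 + φ (P i) = 0 := by
    intro i hi
    have h1 := congrFun hM i
    simp only [Matrix.mulVec, dotProduct, Matrix.of_apply, if_neg hi, Pi.zero_apply] at h1
    rw [Fin.sum_univ_succ] at h1
    simp only [hm, Fin.cons_zero, Fin.cons_succ, one_mul] at h1
    rw [hφ, ← h1]
    congr 1
    exact sum_congr rfl fun j _ => mul_comm _ _
  have hw0 : φ w = 0 := by
    have h1 := congrFun hM m
    simp only [Matrix.mulVec, dotProduct, Matrix.of_apply, if_true, Pi.zero_apply] at h1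
    rw [Fin.sum_univ_succ] at h1
    simp only [ev, Fin.cons_zero, Fin.cons_succ, zero_mul, zero_add] at h1
    rw [hφ, ← h1]
    exact sum_congr rfl fun j _ => mul_comm _ _
  have hφ0 : φ ≠ 0 := by
    intro h1
    apply hv
    obtain ⟨i, hi⟩ : ∃ i : Fin (d + 1), i ≠ m := by
      haveI : Nontrivial (Fin (d + 1)) := Fin.nontrivial_iff_two_le.2 (by omega)
      exact exists_ne m
    have h2 := hrow i hi
    rw [h1, LinearMap.zero_apply, add_zero] at h2
    funext q
    refine Fin.cases h2 (fun j => ?_) q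
    have h3 : φ (Pi.single j 1) = 0 := by rw [h1]; rfl
    rw [hφ, Finset.sum_eq_single j (fun b _ hb => by rw [Pi.single_eq_of_ne hb, mul_zero])
      (fun h => absurd (mem_univ _) h), Pi.single_eq_same, mul_one] at h3
    exact h3
  obtain ⟨i, j, hi, hj, hij⟩ := h φ hφ0 hw0
  have h1 := hrow i hi
  have h2 := hrow j hj
  exact hij (by linarith)

theorem main_gp {d n k : ℕ} (hd : 1 ≤ d) (hk : d + 1 ≤ k) (X : Fin n → Fin d → ℝ) (hX : Function.Injective X)
    (w : Fin d → ℝ) (hw : w ≠ 0) (c : Fin n → Fin k) (hc : Function.Surjective c)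
    (hl : ∀ i j, c i = c j ↔ ∃ t : ℝ, X i - X j = t • w) (a A : ℝ)
    (hA : ∀ u : Fin (d + 1) → Fin n,
      |(Matrix.of fun i j : Fin d => X (u i.succ) j - X (u 0) j).det| ≤ A)
    (hmin : ∀ u : Fin (d + 1) → Fin n, (Matrix.of fun i j : Fin d => X (u i.succ) j - X (u 0) j).det ≠ 0 →
      a ≤ |(Matrix.of fun i j : Fin d => X (u i.succ) j - X (u 0) j).det|)
    (hgp : ∀ u : Fin d → Fin n, (∀ i j, i ≠ j → c (u i) ≠ c (u j)) →
      ∀ φ : (Fin d → ℝ) →ₗ[ℝ] ℝ, φ ≠ 0 → φ w = 0 → ∃ i j, φ (X (u i)) ≠ φ (X (u j))) :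
    ((d : ℝ) + 1) * (((n : ℝ) - k) * a) ≤ 2 * k * A := by
  classical
  haveI : NeZero k := ⟨by omega⟩
  obtain ⟨p, hp⟩ := Function.ne_iff.1 hw
  rw [Pi.zero_apply] at hp
  choose ρ hρ using hc
  set z : Fin n → ℝ := fun i => X i p / w p with hz
  set P : Fin k → Fin d → ℝ := fun l => X (ρ l) - z (ρ l) • w with hP
  have hdiff : ∀ i j, c i = c j → X i - X j = (z i - z j) • w := by
    intro i j hij
    obtain ⟨t, ht⟩ := (hl i j).1 hij
    have h1 := congrFun ht p
    simp only [Pi.sub_apply, Pi.smul_apply, smul_eq_mul] at h1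
    have h2 : t = z i - z j := by
      rw [hz]
      simp only
      rw [← sub_div, h1, mul_div_cancel_right₀ _ hp]
    rw [ht, h2]
  have hXP : ∀ i, X i = P (c i) + z i • w := by
    intro i
    have h1 := hdiff i (ρ (c i)) (hρ (c i)).symm
    rw [sub_smul] at h1
    rw [hP]
    simp only
    have h2 : X i = X (ρ (c i)) + (z i • w - z (ρ (c i)) • w) := by
      rw [← h1]
      abel
    rw [h2]
    abel
  set r : Fin k → Fin (d + 1) → ℝ := fun l => hm (P l) with hr
  set e : Fin (d + 1) → ℝ := ev w with he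
  have hrow : ∀ i, hm (X i) = r (c i) + z i • e := by
    intro i
    rw [hXP i, hm_add]
  have hr0 : ∀ l, r l p.succ = 0 := by
    intro l
    have : X (ρ l) p - X (ρ l) p / w p * w p = 0 := by
      rw [div_mul_cancel₀ _ hp, sub_self]
    simpa [hr, hP, hz, hm] using this
  -- `d + 1` consecutive lines
  set T : Fin k → Fin (d + 1) → Fin k := fun l j => l + Fin.castLE hk j with hT
  have hTinj : ∀ l, Function.Injective (T l) := by
    intro l i j hij
    have h1 : Fin.castLE hk i = Fin.castLE hk j := add_left_cancel hij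
    exact Fin.castLE_injective hk h1
  set rl : Fin k → Fin (d + 1) → Fin (d + 1) → ℝ := fun l j => r (T l j) with hrl
  have h0 : ∀ l, (Matrix.of (rl l)).det = 0 := fun l =>
    Matrix.det_eq_zero_of_column_eq_zero p.succ fun k => hr0 _
  have hD : ∀ u : Fin (d + 1) → Fin n,
      (Matrix.of fun i j : Fin d => X (u i.succ) j - X (u 0) j).det =
        (Matrix.of fun i => r (c (u i)) + z (u i) • e).det := by
    intro u
    rw [← D_diffs fun i => X (u i)]
    congr 1
    ext i j
    rw [Matrix.of_apply, Matrix.of_apply, hrow]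
  simp only [hD] at hA hmin
  have hC : ∀ l m, C (rl l) e m ≠ 0 := by
    intro l m
    refine det_gp hd (fun j => P (T l j)) w m fun φ hφ hφw => ?_
    obtain ⟨i, j, hij⟩ := hgp (fun i => ρ (T l (m.succAbove i))) (fun i j hij => by
      rw [hρ, hρ]
      exact fun h => hij (Fin.succAbove_right_injective (hTinj l h))) φ hφ hφw
    refine ⟨m.succAbove i, m.succAbove j, Fin.succAbove_ne m i, Fin.succAbove_ne m j, ?_⟩
    have h1 : ∀ q, φ (P q) = φ (X (ρ q)) := by
      intro q
      rw [hP]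
      simp only
      rw [map_sub, map_smul, hφw, smul_zero, sub_zero]
    rw [h1, h1]
    exact hij
  have hpair : ∀ l j m, j ≠ m → ∀ i i', c i = T l j → c i' = T l j → ∃ u : Fin (d + 1) → Fin n,
      (Matrix.of fun k => r (c (u k)) + z (u k) • e).det = (z i - z i') * C (rl l) e m := by
    intro l j m hjm i i' hi hi'
    refine ⟨fun k => if k = m then i else if k = j then i' else ρ (T l k), ?_⟩
    rw [← det_pair (rl l) e (fun k => z (ρ (T l k))) hjm (z i) (z i')]
    congr 1
    ext k b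
    by_cases hk : k = m
    · simp [hk, hi, hrl]
    · by_cases hk' : k = j
      · simp [hk', hjm, hi', hrl]
      · simp [hk, hk', hρ, hrl]
  -- the extreme points of the lines
  have hI : ∀ l, (univ.filter fun i => c i = l).Nonempty := fun l => ⟨ρ l, mem_filter.2 ⟨mem_univ _, hρ l⟩⟩
  have htop : ∀ l, ∃ i, c i = l ∧ ∀ k, c k = l → z k ≤ z i := by
    intro l
    obtain ⟨i, hi, h⟩ := exists_max_image _ z (hI l)
    exact ⟨i, (mem_filter.1 hi).2, fun k hk => h k (mem_filter.2 ⟨mem_univ _, hk⟩)⟩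
  have hbot : ∀ l, ∃ i, c i = l ∧ ∀ k, c k = l → z i ≤ z k := by
    intro l
    obtain ⟨i, hi, h⟩ := exists_min_image _ z (hI l)
    exact ⟨i, (mem_filter.1 hi).2, fun k hk => h k (mem_filter.2 ⟨mem_univ _, hk⟩)⟩
  choose top htc htm using htop
  choose bot hbc hbm using hbot
  have hh : ∀ l, 0 ≤ z (top l) - z (bot l) := fun l => by
    have := htm l (bot l) (hbc l)
    linarith
  set N : Fin k → ℝ := fun l => ((univ.filter fun i => c i = l).card : ℝ) - 1 with hN
  set H : Fin k → ℝ := fun l => z (top l) - z (bot l) with hH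
  have g1 : ∀ l j m, j ≠ m → N (T l j) * a ≤ H (T l j) * |C (rl l) e m| := by
    intro l j m hjm
    have hm := hC l m
    have hm' : 0 < |C (rl l) e m| := abs_pos.2 hm
    obtain ⟨i, hi, i', hi', -, -, h4⟩ := gap z (a / |C (rl l) e m|) (univ.filter fun i => c i = T l j)
      (hI _) (by
      intro i hi i' hi' hij
      obtain ⟨u, hu⟩ := hpair l j m hjm i i' (mem_filter.1 hi).2 (mem_filter.1 hi').2
      have h5 : z i - z i' ≠ 0 := by
        intro h6
        have h7 := hdiff i i' ((mem_filter.1 hi).2.trans (mem_filter.1 hi').2.symm)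
        rw [h6, zero_smul, sub_eq_zero] at h7
        exact hij (hX h7)
      have h6 := hmin u (by rw [hu]; exact mul_ne_zero h5 hm)
      rw [hu, abs_mul] at h6
      rw [div_le_iff₀ hm']
      exact h6)
    have h5 : z i - z i' ≤ H (T l j) := by
      have h6 := htm _ i (mem_filter.1 hi).2
      have h7 := hbm _ i' (mem_filter.1 hi').2
      simp only [hH]
      linarith
    have h6 := h4.trans h5
    rw [← mul_div_assoc, div_le_iff₀ hm'] at h6
    exact h6
  have g2 : ∀ l j m, j ≠ m → H (T l j) * |C (rl l) e m| ≤ A := by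
    intro l j m hjm
    obtain ⟨u, hu⟩ := hpair l j m hjm (top _) (bot _) (htc _) (hbc _)
    have h4 := hA u
    rw [hu, abs_mul, abs_of_nonneg (hh _)] at h4
    exact h4
  have g4 : ∀ l, ∑ j, H (T l j) * |C (rl l) e j| ≤ 2 * A := by
    intro l
    have hv : ∀ u : Fin (d + 1) → Fin n, (∀ j, c (u j) = T l j) → |∑ j, z (u j) * C (rl l) e j| ≤ A := by
      intro u hu
      have h4 := hA u
      simp only [hu] at h4
      have h5 := det_add (rl l) e (fun j => z (u j)) (h0 l)
      simp only [hrl] at h5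
      rw [h5] at h4
      exact h4
    have h4 := hv (fun j => if 0 ≤ C (rl l) e j then top (T l j) else bot (T l j)) (fun j => by
      split_ifs
      · exact htc _
      · exact hbc _)
    have h5 := hv (fun j => if 0 ≤ C (rl l) e j then bot (T l j) else top (T l j)) (fun j => by
      split_ifs
      · exact hbc _
      · exact htc _)
    have h6 : ∑ j, H (T l j) * |C (rl l) e j| =
        ∑ j, z (if 0 ≤ C (rl l) e j then top (T l j) else bot (T l j)) * C (rl l) e j -
          ∑ j, z (if 0 ≤ C (rl l) e j then bot (T l j) else top (T l j)) * C (rl l) e j := by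
      rw [← Finset.sum_sub_distrib]
      refine Finset.sum_congr rfl fun j _ => ?_
      by_cases h7 : 0 ≤ C (rl l) e j
      · rw [if_pos h7, if_pos h7, abs_of_nonneg h7]
        simp only [hH]
        ring
      · rw [if_neg h7, if_neg h7, abs_of_neg (not_le.1 h7)]
        simp only [hH]
        ring
    rw [h6]
    have h7 := abs_le.1 h4
    have h8 := abs_le.1 h5
    linarith [h7.2, h8.1]
  have g5 : ∀ l, (∑ j, N (T l j)) * a ≤ 2 * A := fun l =>
    part_all hd (C (rl l) e) (fun j => H (T l j)) (fun j => N (T l j)) a A (fun j => hh _) (hC l)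
      (g1 l) (g2 l) (g4 l)
  have hcard : ∑ l, N l = (n : ℝ) - k := by
    simp only [hN]
    rw [Finset.sum_sub_distrib, ← Nat.cast_sum,
      ← Finset.card_eq_sum_card_fiberwise (f := c) (s := univ) (t := univ) (fun i _ => by simp)]
    simp
  have h7 : ∑ l : Fin k, (∑ j, N (T l j)) * a ≤ ∑ l : Fin k, 2 * A := Finset.sum_le_sum fun l _ => g5 l
  rw [← Finset.sum_mul, Finset.sum_comm, Finset.sum_const, card_univ, Fintype.card_fin, nsmul_eq_mul] at h7
  have h8 : ∀ j : Fin (d + 1), ∑ l : Fin k, N (T l j) = ∑ l, N l := fun j =>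
    Equiv.sum_comp (Equiv.addRight (Fin.castLE hk j)) N
  simp only [h8] at h7
  rw [Finset.sum_const, card_univ, Fintype.card_fin, nsmul_eq_mul, hcard] at h7
  push_cast at h7
  linarith

end H2P
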