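import Pool.Agent.Lib.H2P.Q
import Pool.Agent.Lib.H2P.V

/-!
# Subsets of a configuration on parallel lines in general position (MP_280848_co)
-/

set_option autoImplicit false

namespace H2P

open Finset Module

theorem sub_gp {d n : ℕ} (hd : 1 ≤ d) (X : Fin n → Fin d → ℝ) (hX : Function.Injective X)
    (w : Fin d → ℝ) (hw : w ≠ 0) (J : Finset (Fin n)) (k : ℕ) (hk : d + 1 ≤ k)
    (hJ : ((fun i => {y : Fin d → ℝ | ∃ t : ℝ, y = X i + t • w}) '' (J : Set (Fin n))).ncard = k)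
    (a A : ℝ)
    (hA : ∀ u : Fin (d + 1) → Fin n,
      |(Matrix.of fun i j : Fin d => X (u i.succ) j - X (u 0) j).det| ≤ A)
    (hmin : ∀ u : Fin (d + 1) → Fin n, (Matrix.of fun i j : Fin d => X (u i.succ) j - X (u 0) j).det ≠ 0 →
      a ≤ |(Matrix.of fun i j : Fin d => X (u i.succ) j - X (u 0) j).det|)
    (hgp : ∀ u : Fin d → Fin n, (∀ i, u i ∈ J) →
      (∀ i j, i ≠ j → {y : Fin d → ℝ | ∃ t : ℝ, y = X (u i) + t • w} ≠ {y | ∃ t : ℝ, y = X (u j) + t • w}) →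
      ∀ φ : (Fin d → ℝ) →ₗ[ℝ] ℝ, φ ≠ 0 → φ w = 0 → ∃ i j, φ (X (u i)) ≠ φ (X (u j))) :
    ((d : ℝ) + 1) * (((J.card : ℝ) - k) * a) ≤ 2 * k * A := by
  classical
  set ι : Fin J.card ↪o Fin n := J.orderEmbOfFin rfl with hι
  set Y : Fin J.card → Fin d → ℝ := fun i => X (ι i) with hY
  have hYi : Function.Injective Y := fun i j h => ι.injective (hX h)
  have hlc : (Set.range fun i => {y : Fin d → ℝ | ∃ t : ℝ, y = Y i + t • w}).ncard = k := by
    have h1 : (fun i => {y : Fin d → ℝ | ∃ t : ℝ, y = Y i + t • w}) =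
        (fun i => {y : Fin d → ℝ | ∃ t : ℝ, y = X i + t • w}) ∘ ι := rfl
    rw [h1, Set.range_comp, hι, Finset.range_orderEmbOfFin, hJ]
  obtain ⟨c, hc, hl⟩ := colouring Y w k hlc
  refine main_gp hd hk Y hYi w hw c hc hl a A (fun u => hA fun i => ι (u i))
    (fun u hu => hmin (fun i => ι (u i)) hu) fun u hu φ hφ hφw => ?_
  refine hgp (fun i => ι (u i)) (fun i => J.orderEmbOfFin_mem rfl _) (fun i j hij h => ?_) φ hφ hφw
  apply hu i j hij
  rw [hl]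
  have h4 : X (ι (u i)) ∈ {y : Fin d → ℝ | ∃ t : ℝ, y = X (ι (u i)) + t • w} := ⟨0, by rw [zero_smul, add_zero]⟩
  rw [h] at h4
  obtain ⟨t, ht⟩ := h4
  exact ⟨t, by simp only [hY]; rw [ht]; abel⟩

theorem arith_gp {d n k : ℕ} (hd : 1 ≤ d) (hk : d + 1 ≤ k) (h2 : 2 * k < d * (d + 1))
    (hn : k * (d ^ 2 + d - 2) < (d ^ 2 + d - 2 * k) * n) :
    ((n : ℝ) - 1) / d < ((d : ℝ) + 1) * ((n : ℝ) - k) / (2 * k) := by
  have e1 : 2 ≤ d ^ 2 + d := by nlinarith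
  have e2 : 2 * k ≤ d ^ 2 + d := by nlinarith
  have h3 : (k : ℝ) * ((d : ℝ) ^ 2 + d - 2) < ((d : ℝ) ^ 2 + d - 2 * k) * n := by
    have h4 : ((k * (d ^ 2 + d - 2) : ℕ) : ℝ) < (((d ^ 2 + d - 2 * k) * n : ℕ) : ℝ) := by exact_mod_cast hn
    push_cast [Nat.cast_sub e1, Nat.cast_sub e2] at h4
    exact h4
  have hd' : (0 : ℝ) < d := by exact_mod_cast hd
  have hk' : (0 : ℝ) < 2 * k := by
    have : (0 : ℝ) < k := by exact_mod_cast (by omega : 0 < k)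
    linarith
  rw [div_lt_div_iff₀ hd' hk']
  nlinarith

end H2P
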