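import Pool.Agent.Lib.H2P.L

/-!
# Many parallel lines in general position: the bound for one line (MP_280848_co)
-/

set_option autoImplicit false

namespace H2P

open Finset

theorem plucker {N : Type*} [Fintype N] [DecidableEq N] (M : Matrix N N ℝ) (hM : M.det ≠ 0) {s t : N} (hst : s ≠ t)
    (x y : N → ℝ) : ((M.updateRow s x).updateRow t y).det * M.det =
      (M.updateRow s x).det * (M.updateRow t y).det - (M.updateRow s y).det * (M.updateRow t x).det := by
  classical
  have hcomm : ∀ x : N → ℝ, (M.updateRow s x).updateRow t y = (M.updateRow t y).updateRow s x := by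
    intro x
    ext i j
    by_cases hi : i = t
    · subst hi
      rw [Matrix.updateRow_self, Matrix.updateRow_ne hst.symm, Matrix.updateRow_self]
    · rw [Matrix.updateRow_ne hi]
      by_cases hi' : i = s
      · subst hi'
        rw [Matrix.updateRow_self, Matrix.updateRow_self]
      · rw [Matrix.updateRow_ne hi', Matrix.updateRow_ne hi', Matrix.updateRow_ne hi]
  let f : (N → ℝ) →ₗ[ℝ] ℝ :=
    { toFun := fun x => ((M.updateRow t y).updateRow s x).det * M.det -
        ((M.updateRow s x).det * (M.updateRow t y).det - (M.updateRow s y).det * (M.updateRow t x).det)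
      map_add' := fun x x' => by
        simp only [Matrix.det_updateRow_add]
        ring
      map_smul' := fun c x => by
        simp only [Matrix.det_updateRow_smul, RingHom.id_apply, smul_eq_mul]
        ring }
  have hf : ∀ x, f x = ((M.updateRow t y).updateRow s x).det * M.det -
        ((M.updateRow s x).det * (M.updateRow t y).det - (M.updateRow s y).det * (M.updateRow t x).det) := fun x => rfl
  have hrow : ∀ q, f (M q) = 0 := by
    intro q
    rw [hf]
    by_cases hqs : q = s
    · subst hqs
      have e1 : (M.updateRow t (M q)).det = 0 := by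
        refine Matrix.det_zero_of_row_eq hst ?_
        rw [Matrix.updateRow_self]
        funext j
        rw [Matrix.updateRow_ne hst]
      have e2 : (M.updateRow t y).updateRow q (M q) = M.updateRow t y := by
        ext i j
        by_cases hi : i = q
        · subst hi
          rw [Matrix.updateRow_self, Matrix.updateRow_ne hst]
        · rw [Matrix.updateRow_ne hi]
      rw [e1, e2, Matrix.updateRow_eq_self]
      ring
    · have e1 : (M.updateRow s (M q)).det = 0 := by
        refine Matrix.det_zero_of_row_eq (Ne.symm hqs) ?_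
        rw [Matrix.updateRow_self]
        funext j
        rw [Matrix.updateRow_ne hqs]
      by_cases hqt : q = t
      · subst hqt
        have e2 : ((M.updateRow q y).updateRow s (M q)).det = - (M.updateRow s y).det := by
          have e4 : (M.updateRow q y).updateRow s (M q) = (M.updateRow s y).submatrix (Equiv.swap s q) id := by
            ext i j
            rw [Matrix.submatrix_apply]
            by_cases hi : i = s
            · subst hi
              rw [Matrix.updateRow_self, Equiv.swap_apply_left, Matrix.updateRow_ne hst.symm]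
              rfl
            · rw [Matrix.updateRow_ne hi]
              by_cases hi' : i = q
              · subst hi'
                rw [Matrix.updateRow_self, Equiv.swap_apply_right, Matrix.updateRow_self]
                rfl
              · rw [Matrix.updateRow_ne hi', Equiv.swap_apply_of_ne_of_ne hi hi', Matrix.updateRow_ne hi]
                rfl
          rw [e4, Matrix.det_permute, Equiv.Perm.sign_swap hst]
          simp
        rw [e1, e2, Matrix.updateRow_eq_self]
        ring
      · have e2 : ((M.updateRow t y).updateRow s (M q)).det = 0 := by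
          refine Matrix.det_zero_of_row_eq (Ne.symm hqs) ?_
          rw [Matrix.updateRow_self]
          funext j
          rw [Matrix.updateRow_ne hqs, Matrix.updateRow_ne hqt]
        have e3 : (M.updateRow t (M q)).det = 0 := by
          refine Matrix.det_zero_of_row_eq (Ne.symm hqt) ?_
          rw [Matrix.updateRow_self]
          funext j
          rw [Matrix.updateRow_ne hqt]
        rw [e1, e2, e3]
        ring
  have hx : x = ∑ q, (Matrix.vecMul x M⁻¹) q • M q := by
    have h1 : Matrix.vecMul (Matrix.vecMul x M⁻¹) M = x := by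
      rw [Matrix.vecMul_vecMul, Matrix.nonsing_inv_mul _ (isUnit_iff_ne_zero.2 hM), Matrix.vecMul_one]
    funext j
    rw [Finset.sum_apply]
    have h2 := congrFun h1 j
    rw [← h2]
    simp only [Matrix.vecMul, dotProduct, Pi.smul_apply, smul_eq_mul]
  have h0 : f x = 0 := by
    rw [hx, map_sum]
    exact sum_eq_zero fun q _ => by rw [map_smul, hrow q, smul_zero]
  rw [hf] at h0
  rw [hcomm]
  linarith

theorem plane_half {ι : Type*} [DecidableEq ι] (I : Finset ι) (α β : ι → ℝ) (V δ : ℝ) (hV : 0 < V) (hδ : 0 < δ)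
    (hα : ∀ i ∈ I, |α i| ≤ V) (hβ : ∀ i ∈ I, |β i| ≤ |α i|)
    (h : ∀ i ∈ I, ∀ j ∈ I, i ≠ j → δ * V ^ 2 ≤ |α i * β j - α j * β i|) : ((I.card : ℝ) - 1) * δ ≤ 2 := by
  rcases I.eq_empty_or_nonempty with h0 | h0
  · subst h0
    simp
    linarith
  · have hz : ∀ i ∈ I, |β i / α i| ≤ 1 := by
      intro i hi
      rw [abs_div]
      exact div_le_one_of_le₀ (hβ i hi) (abs_nonneg _)
    obtain ⟨i, hi, j, hj, -, -, h4⟩ := gap (fun i => β i / α i) δ I h0 (by
      intro i hi j hj hij
      have h1 := h i hi j hj hij
      have hpos : 0 < |α i * β j - α j * β i| := lt_of_lt_of_le (by positivity) h1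
      have hne : ∀ i ∈ I, ∀ j, 0 < |α i * β j - α j * β i| → α i ≠ 0 := by
        intro i hi j hp h2
        have h3 : β i = 0 := by
          have := hβ i hi
          rw [h2, abs_zero] at this
          exact abs_eq_zero.1 (le_antisymm this (abs_nonneg _))
        rw [h2, h3] at hp
        simp at hp
      have hi0 := hne i hi j hpos
      have hj0 := hne j hj i (by rw [abs_sub_comm]; exact hpos)
      have e1 : β i / α i - β j / α j = (α j * β i - α i * β j) / (α i * α j) := by
        field_simp
      rw [e1, abs_div, abs_sub_comm, le_div_iff₀ (abs_pos.2 (mul_ne_zero hi0 hj0))]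
      refine le_trans (mul_le_mul_of_nonneg_left ?_ hδ.le) h1
      rw [abs_mul, pow_two]
      exact mul_le_mul (hα i hi) (hα j hj) (abs_nonneg _) hV.le)
    have h5 := abs_le.1 (hz i hi)
    have h6 := abs_le.1 (hz j hj)
    linarith [h5.2, h6.1]

theorem plane {ι : Type*} [DecidableEq ι] (I : Finset ι) (α β : ι → ℝ) (V δ : ℝ) (hV : 0 < V) (hδ : 0 ≤ δ)
    (hα : ∀ i ∈ I, |α i| ≤ V) (hβ : ∀ i ∈ I, |β i| ≤ V)
    (h : ∀ i ∈ I, ∀ j ∈ I, i ≠ j → δ * V ^ 2 ≤ |α i * β j - α j * β i|) : ((I.card : ℝ) - 2) * δ ≤ 4 := by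
  rcases hδ.eq_or_lt with h0 | h0
  · rw [← h0]
    simp
  have h1 := plane_half (I.filter fun i => |β i| ≤ |α i|) α β V δ hV h0
    (fun i hi => hα i (mem_filter.1 hi).1) (fun i hi => (mem_filter.1 hi).2)
    (fun i hi j hj hij => h i (mem_filter.1 hi).1 j (mem_filter.1 hj).1 hij)
  have h2 := plane_half (I.filter fun i => ¬ |β i| ≤ |α i|) β α V δ hV h0
    (fun i hi => hβ i (mem_filter.1 hi).1) (fun i hi => (not_le.1 (mem_filter.1 hi).2).le)
    (fun i hi j hj hij => by
      refine (h i (mem_filter.1 hi).1 j (mem_filter.1 hj).1 hij).trans (le_of_eq ?_)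
      rw [abs_sub_comm]
      congr 1
      ring)
  have h3 := Finset.card_filter_add_card_filter_not (s := I) (fun i => |β i| ≤ |α i|)
  have h4 : ((I.filter fun i => |β i| ≤ |α i|).card : ℝ) + ((I.filter fun i => ¬ |β i| ≤ |α i|).card : ℝ) = I.card := by
    exact_mod_cast h3
  rw [← h4]
  linarith

/-- The volume of a base simplex. -/
noncomputable def Dt {d k : ℕ} (r : Fin k → Fin (d + 1) → ℝ) (e : Fin (d + 1) → ℝ) (κ : Fin d → Fin k) : ℝ :=
  (Matrix.of (Fin.cons e (fun i => r (κ i)) : Fin (d + 1) → Fin (d + 1) → ℝ)).det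

theorem one_line {d k : ℕ} (hk : d + 3 ≤ k) (r : Fin k → Fin (d + 3 + 1) → ℝ) (e : Fin (d + 3 + 1) → ℝ) (l : Fin k)
    (hD : ∀ κ : Fin (d + 3) → Fin k, Function.Injective κ → κ 0 = l → Dt r e κ ≠ 0) (B A h : ℝ) (hA : 0 < A)
    (hB : 0 ≤ B) (h1 : ∀ κ : Fin (d + 3) → Fin k, Function.Injective κ → κ 0 = l → B ≤ h * |Dt r e κ|)
    (h2 : ∀ κ : Fin (d + 3) → Fin k, Function.Injective κ → κ 0 = l → h * |Dt r e κ| ≤ A) :
    ((k : ℝ) - (d + 3)) * B ≤ 4 * A := by
  classical
  haveI : NeZero k := ⟨by omega⟩
  have hne : (univ.filter fun κ : Fin (d + 3) → Fin k => Function.Injective κ ∧ κ 0 = l).Nonempty := by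
    refine ⟨fun q => l + Fin.castLE hk q, mem_filter.2 ⟨mem_univ _, fun i j hij => ?_, ?_⟩⟩
    · exact Fin.castLE_injective hk (add_left_cancel hij)
    · have : Fin.castLE hk (0 : Fin (d + 3)) = 0 := rfl
      change l + Fin.castLE hk (0 : Fin (d + 3)) = l
      rw [this, add_zero]
  obtain ⟨κ, hκ, hmax⟩ := exists_max_image _ (fun κ => |Dt r e κ|) hne
  obtain ⟨hinj, hκ0⟩ := (mem_filter.1 hκ).2
  have hV0 := hD κ hinj hκ0
  have hV : 0 < |Dt r e κ| := abs_pos.2 hV0
  set M : Matrix (Fin (d + 3 + 1)) (Fin (d + 3 + 1)) ℝ :=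
    Matrix.of (Fin.cons e (fun i => r (κ i)) : Fin (d + 3 + 1) → Fin (d + 3 + 1) → ℝ) with hM
  have hMdet : M.det = Dt r e κ := rfl
  let K : Fin k → Fin k → Fin (d + 3) → Fin k := fun i j q => if q = 1 then i else if q = 2 then j else κ q
  have v1 : ((1 : Fin (d + 3)) : ℕ) = 1 := @Nat.mod_eq_of_lt 1 (d + 3) (by omega)
  have v2 : ((2 : Fin (d + 3)) : ℕ) = 2 := @Nat.mod_eq_of_lt 2 (d + 3) (by omega)
  have v0 : ((0 : Fin (d + 3)) : ℕ) = 0 := rfl
  have h12 : (1 : Fin (d + 3)) ≠ 2 := by
    intro h
    have := congrArg Fin.val h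
    omega
  have hs : (1 : Fin (d + 3)).succ ≠ (2 : Fin (d + 3)).succ := fun h => h12 (Fin.succ_injective _ h)
  have hK : ∀ i j, ((M.updateRow (1 : Fin (d + 3)).succ (r i)).updateRow (2 : Fin (d + 3)).succ (r j)).det =
      Dt r e (K i j) := by
    intro i j
    rw [Dt]
    congr 1
    ext a b
    refine Fin.cases ?_ (fun q => ?_) a
    · rw [Matrix.updateRow_ne (Fin.succ_ne_zero _).symm, Matrix.updateRow_ne (Fin.succ_ne_zero _).symm]
      rfl
    · by_cases hq2 : q = 2
      · subst hq2
        rw [Matrix.updateRow_self]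
        have e5 : K i j 2 = j := by simp [K, h12.symm]
        change r j b = r (K i j 2) b
        rw [e5]
      · rw [Matrix.updateRow_ne fun h => hq2 (Fin.succ_injective _ h)]
        by_cases hq1 : q = 1
        · subst hq1
          rw [Matrix.updateRow_self]
          have e5 : K i j 1 = i := by simp [K]
          change r i b = r (K i j 1) b
          rw [e5]
        · rw [Matrix.updateRow_ne fun h => hq1 (Fin.succ_injective _ h)]
          have e5 : K i j q = κ q := by simp [K, hq1, hq2]
          change r (κ q) b = r (K i j q) b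
          rw [e5]
  have hKx : K (κ 1) (κ 2) = κ := by
    funext q
    simp only [K]
    by_cases hq1 : q = 1
    · simp [hq1]
    · by_cases hq2 : q = 2
      · simp [hq2, h12.symm]
      · simp [hq1, hq2]
  have hα : ∀ i, (M.updateRow (1 : Fin (d + 3)).succ (r i)).det = Dt r e (K i (κ 2)) := by
    intro i
    rw [← hK]
    congr 1
    ext a b
    by_cases ha : a = (2 : Fin (d + 3)).succ
    · subst ha
      rw [Matrix.updateRow_self, Matrix.updateRow_ne hs.symm]
      rfl
    · rw [Matrix.updateRow_ne ha]
  have hβ : ∀ j, (M.updateRow (2 : Fin (d + 3)).succ (r j)).det = Dt r e (K (κ 1) j) := by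
    intro j
    rw [← hK]
    congr 1
    ext a b
    by_cases ha : a = (2 : Fin (d + 3)).succ
    · subst ha
      rw [Matrix.updateRow_self, Matrix.updateRow_self]
    · rw [Matrix.updateRow_ne ha, Matrix.updateRow_ne ha]
      by_cases ha' : a = (1 : Fin (d + 3)).succ
      · subst ha'
        rw [Matrix.updateRow_self]
        rfl
      · rw [Matrix.updateRow_ne ha']
  have hpl : ∀ i j, Dt r e (K i j) * Dt r e κ = Dt r e (K i (κ 2)) * Dt r e (K (κ 1) j) -
      Dt r e (K j (κ 2)) * Dt r e (K (κ 1) i) := by
    intro i j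
    have h := plucker M (by rw [hMdet]; exact hV0) hs (r i) (r j)
    rw [hK, hα, hα, hβ, hβ, hMdet] at h
    exact h
  -- the free lines
  set I : Finset (Fin k) := univ \ (((univ : Finset (Fin (d + 3))).erase 1).erase 2).image κ with hI
  have hIc : (I.card : ℝ) = k - (d + 1) := by
    have h3 : ((((univ : Finset (Fin (d + 3))).erase 1).erase 2).image κ).card = d + 1 := by
      rw [card_image_of_injective _ hinj, card_erase_of_mem (mem_erase.2 ⟨h12.symm, mem_univ _⟩),
        card_erase_of_mem (mem_univ _), card_univ, Fintype.card_fin]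
      omega
    rw [hI, card_sdiff_of_subset (subset_univ _), h3, card_univ, Fintype.card_fin, Nat.cast_sub (by omega)]
    push_cast
    ring
  have hmem : ∀ i ∈ I, ∀ q, q ≠ 1 → q ≠ 2 → κ q ≠ i := by
    intro i hi q hq1 hq2 h
    exact (mem_sdiff.1 hi).2 (mem_image.2 ⟨q, mem_erase.2 ⟨hq2, mem_erase.2 ⟨hq1, mem_univ _⟩⟩, h⟩)
  have h01 : (0 : Fin (d + 3)) ≠ 1 := by
    intro h
    have := congrArg Fin.val h
    omega
  have h02 : (0 : Fin (d + 3)) ≠ 2 := by
    intro h
    have := congrArg Fin.val h
    omega
  have hKinj : ∀ i ∈ I, ∀ j ∈ I, i ≠ j → Function.Injective (K i j) ∧ K i j 0 = l := by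
    intro i hi j hj hij
    constructor
    · intro a b hab
      simp only [K] at hab
      by_cases ha1 : a = 1
      · by_cases hb1 : b = 1
        · rw [ha1, hb1]
        · by_cases hb2 : b = 2
          · simp only [ha1, if_true, hb2, h12.symm, if_false] at hab
            exact absurd hab hij
          · simp only [ha1, if_true, hb1, hb2, if_false] at hab
            exact absurd hab.symm (hmem i hi b hb1 hb2)
      · by_cases ha2 : a = 2
        · by_cases hb1 : b = 1
          · simp only [ha2, if_true, hb1, h12.symm, if_false] at hab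
            exact absurd hab.symm hij
          · by_cases hb2 : b = 2
            · rw [ha2, hb2]
            · simp only [ha2, if_true, hb1, hb2, h12.symm, if_false] at hab
              exact absurd hab.symm (hmem j hj b hb1 hb2)
        · by_cases hb1 : b = 1
          · simp only [ha1, ha2, if_true, hb1, if_false] at hab
            exact absurd hab (hmem i hi a ha1 ha2)
          · by_cases hb2 : b = 2
            · simp only [ha1, ha2, if_true, hb2, h12.symm, if_false] at hab
              exact absurd hab (hmem j hj a ha1 ha2)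
            · simp only [ha1, ha2, hb1, hb2, if_false] at hab
              exact hinj hab
    · simp only [K, h01, h02, if_false]
      exact hκ0
  have hκ1 : κ 1 ∈ I := by
    refine mem_sdiff.2 ⟨mem_univ _, fun h => ?_⟩
    obtain ⟨q, hq, hq'⟩ := mem_image.1 h
    rw [mem_erase, mem_erase] at hq
    exact hq.2.1 (hinj hq')
  have hκ2 : κ 2 ∈ I := by
    refine mem_sdiff.2 ⟨mem_univ _, fun h => ?_⟩
    obtain ⟨q, hq, hq'⟩ := mem_image.1 h
    rw [mem_erase, mem_erase] at hq
    exact hq.1 (hinj hq')
  have hDle : ∀ i ∈ I, ∀ j ∈ I, i ≠ j → |Dt r e (K i j)| ≤ |Dt r e κ| := by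
    intro i hi j hj hij
    obtain ⟨e1, e2⟩ := hKinj i hi j hj hij
    exact hmax _ (mem_filter.2 ⟨mem_univ _, e1, e2⟩)
  have hD0 : ∀ i, Dt r e (K i i) = 0 := by
    intro i
    have h := hpl i i
    have h3 : Dt r e (K i i) * Dt r e κ = 0 := by rw [h]; ring
    rcases mul_eq_zero.1 h3 with h4 | h4
    · exact h4
    · exact absurd h4 hV0
  have hpos : 0 ≤ B / A := div_nonneg hB hA.le
  have hfin := plane I (fun i => Dt r e (K i (κ 2))) (fun i => Dt r e (K (κ 1) i)) |Dt r e κ| (B / A) hV hpos
    (fun i hi => by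
      by_cases hi2 : i = κ 2
      · rw [hi2, hD0, abs_zero]
        exact hV.le
      · exact hDle i hi _ hκ2 hi2)
    (fun i hi => by
      by_cases hi1 : κ 1 = i
      · rw [← hi1, hD0, abs_zero]
        exact hV.le
      · exact hDle _ hκ1 i hi hi1)
    (fun i hi j hj hij => by
      rw [← hpl i j, abs_mul]
      obtain ⟨e1, e2⟩ := hKinj i hi j hj hij
      have h3 := h1 _ e1 e2
      have h4 := h2 κ hinj hκ0
      have h5 : B / A * |Dt r e κ| ≤ |Dt r e (K i j)| := by
        rw [div_mul_eq_mul_div, div_le_iff₀ hA]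
        calc B * |Dt r e κ| ≤ h * |Dt r e (K i j)| * |Dt r e κ| := mul_le_mul_of_nonneg_right h3 hV.le
          _ = |Dt r e (K i j)| * (h * |Dt r e κ|) := by ring
          _ ≤ |Dt r e (K i j)| * A := mul_le_mul_of_nonneg_left h4 (abs_nonneg _)
      calc B / A * |Dt r e κ| ^ 2 = B / A * |Dt r e κ| * |Dt r e κ| := by ring
        _ ≤ |Dt r e (K i j)| * |Dt r e κ| := mul_le_mul_of_nonneg_right h5 hV.le)
  rw [hIc, ← mul_div_assoc, div_le_iff₀ hA] at hfin
  refine le_trans (le_of_eq ?_) hfin
  ring

end H2P
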