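import Pool.Agent.Lib.H2P.Y
import Pool.Agent.Lib.H2P.W

/-!
# Many parallel lines in general position (MP_280848_co)
-/

set_option autoImplicit false

namespace H2P

open Finset Module

theorem main_many {d n k : ℕ} (hk : d + 3 + 1 ≤ k) (X : Fin n → Fin (d + 3) → ℝ) (hX : Function.Injective X)
    (w : Fin (d + 3) → ℝ) (hw : w ≠ 0) (c : Fin n → Fin k) (hc : Function.Surjective c)
    (hl : ∀ i j, c i = c j ↔ ∃ t : ℝ, X i - X j = t • w) (a A : ℝ) (ha : 0 ≤ a) (hA0 : 0 < A)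
    (hA : ∀ u : Fin (d + 3 + 1) → Fin n,
      |(Matrix.of fun i j : Fin (d + 3) => X (u i.succ) j - X (u 0) j).det| ≤ A)
    (hmin : ∀ u : Fin (d + 3 + 1) → Fin n,
      (Matrix.of fun i j : Fin (d + 3) => X (u i.succ) j - X (u 0) j).det ≠ 0 →
      a ≤ |(Matrix.of fun i j : Fin (d + 3) => X (u i.succ) j - X (u 0) j).det|)
    (hgp : ∀ u : Fin (d + 3) → Fin n, (∀ i j, i ≠ j → c (u i) ≠ c (u j)) →
      ∀ φ : (Fin (d + 3) → ℝ) →ₗ[ℝ] ℝ, φ ≠ 0 → φ w = 0 → ∃ i j, φ (X (u i)) ≠ φ (X (u j))) :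
    ((k : ℝ) - (d + 3)) * (((n : ℝ) - k) * a) ≤ 4 * k * A := by
  classical
  haveI : NeZero k := ⟨by omega⟩
  obtain ⟨p, hp⟩ := Function.ne_iff.1 hw
  rw [Pi.zero_apply] at hp
  choose ρ hρ using hc
  set z : Fin n → ℝ := fun i => X i p / w p with hz
  set P : Fin k → Fin (d + 3) → ℝ := fun l => X (ρ l) - z (ρ l) • w with hP
  have hdiff : ∀ i j, c i = c j → X i - X j = (z i - z j) • w := by
    intro i j hij
    obtain ⟨t, ht⟩ := (hl i j).1 hij
    have h1 := congrFun ht p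
    simp only [Pi.sub_apply, Pi.smul_apply, smul_eq_mul] at h1
    have h2 : t = z i - z j := by
      rw [hz]
      simp only
      rw [← sub_div, h1, mul_div_cancel_right₀ _ hp]
    rw [ht, h2]
  have hXP : ∀ i, X i = P (c i) + z i • w := by
    intro i
    have h1 := hdiff i (ρ (c i)) (hρ (c i)).symm
    rw [sub_smul] at h1
    rw [hP]
    simp only
    have h2 : X i = X (ρ (c i)) + (z i • w - z (ρ (c i)) • w) := by
      rw [← h1]
      abel
    rw [h2]
    abel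
  set r : Fin k → Fin (d + 3 + 1) → ℝ := fun l => hm (P l) with hr
  set e : Fin (d + 3 + 1) → ℝ := ev w with he
  have hrow : ∀ i, hm (X i) = r (c i) + z i • e := by
    intro i
    rw [hXP i, hm_add]
  have hr0 : ∀ l, r l p.succ = 0 := by
    intro l
    have : X (ρ l) p - X (ρ l) p / w p * w p = 0 := by
      rw [div_mul_cancel₀ _ hp, sub_self]
    simpa [hr, hP, hz, hm] using this
  have hD : ∀ u : Fin (d + 3 + 1) → Fin n,
      (Matrix.of fun i j : Fin (d + 3) => X (u i.succ) j - X (u 0) j).det =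
        (Matrix.of fun i => r (c (u i)) + z (u i) • e).det := by
    intro u
    rw [← D_diffs fun i => X (u i)]
    congr 1
    ext i j
    rw [Matrix.of_apply, Matrix.of_apply, hrow]
  simp only [hD] at hA hmin
  -- a base simplex at the line `κ 0`
  set T : (Fin (d + 3) → Fin k) → Fin (d + 3 + 1) → Fin k := fun κ => Fin.cons (κ 0) κ with hT
  have hT1 : ∀ κ q, T κ q.succ = κ q := fun κ q => rfl
  set rl : (Fin (d + 3) → Fin k) → Fin (d + 3 + 1) → Fin (d + 3 + 1) → ℝ := fun κ q => r (T κ q) with hrl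
  have hCD : ∀ κ, C (rl κ) e 0 = Dt r e κ := by
    intro κ
    rw [C, Dt]
    congr 1
    ext q b
    refine Fin.cases ?_ (fun q => ?_) q
    · simp
    · simp only [Matrix.of_apply, Fin.succ_ne_zero, if_false]
      rfl
  have hne : ∀ κ : Fin (d + 3) → Fin k, Function.Injective κ → Dt r e κ ≠ 0 := by
    intro κ hκ
    rw [← hCD]
    refine det_gp (by omega) (fun j => P (T κ j)) w 0 fun φ hφ hφw => ?_
    obtain ⟨i, j, hij⟩ := hgp (fun i => ρ (κ i)) (fun i j hij => by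
      rw [hρ, hρ]
      exact fun h => hij (hκ h)) φ hφ hφw
    refine ⟨i.succ, j.succ, Fin.succ_ne_zero i, Fin.succ_ne_zero j, ?_⟩
    have h1 : ∀ q, φ (P q) = φ (X (ρ q)) := by
      intro q
      rw [hP]
      simp only
      rw [map_sub, map_smul, hφw, smul_zero, sub_zero]
    rw [hT1, hT1, h1, h1]
    exact hij
  have hpair : ∀ κ : Fin (d + 3) → Fin k, ∀ i i', c i = κ 0 → c i' = κ 0 → ∃ u : Fin (d + 3 + 1) → Fin n,
      (Matrix.of fun q => r (c (u q)) + z (u q) • e).det = (z i - z i') * Dt r e κ := by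
    intro κ i i' hi hi'
    refine ⟨fun q => if q = 0 then i else if q = (0 : Fin (d + 3)).succ then i' else ρ (T κ q), ?_⟩
    rw [← hCD, ← det_pair (rl κ) e (fun q => z (ρ (T κ q))) (Fin.succ_ne_zero (0 : Fin (d + 3))) (z i) (z i')]
    congr 1
    ext q b
    have h5 : T κ (0 : Fin (d + 3)).succ = κ 0 := rfl
    by_cases hq : q = 0
    · simp only [Matrix.of_apply, hq, if_true, hi, hrl, h5]
    · by_cases hq' : q = (0 : Fin (d + 3)).succ
      · simp only [Matrix.of_apply, hq', Fin.succ_ne_zero, if_false, if_true, hi', hrl, h5]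
      · simp only [Matrix.of_apply, hq, hq', if_false, hρ, hrl]
  -- the extreme points of the lines
  have hI : ∀ l, (univ.filter fun i => c i = l).Nonempty := fun l => ⟨ρ l, mem_filter.2 ⟨mem_univ _, hρ l⟩⟩
  have htop : ∀ l, ∃ i, c i = l ∧ ∀ k, c k = l → z k ≤ z i := by
    intro l
    obtain ⟨i, hi, h⟩ := exists_max_image _ z (hI l)
    exact ⟨i, (mem_filter.1 hi).2, fun k hk => h k (mem_filter.2 ⟨mem_univ _, hk⟩)⟩
  have hbot : ∀ l, ∃ i, c i = l ∧ ∀ k, c k = l → z i ≤ z k := by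
    intro l
    obtain ⟨i, hi, h⟩ := exists_min_image _ z (hI l)
    exact ⟨i, (mem_filter.1 hi).2, fun k hk => h k (mem_filter.2 ⟨mem_univ _, hk⟩)⟩
  choose top htc htm using htop
  choose bot hbc hbm using hbot
  have hh : ∀ l, 0 ≤ z (top l) - z (bot l) := fun l => by
    have := htm l (bot l) (hbc l)
    linarith
  set N : Fin k → ℝ := fun l => ((univ.filter fun i => c i = l).card : ℝ) - 1 with hN
  set H : Fin k → ℝ := fun l => z (top l) - z (bot l) with hH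
  have g1 : ∀ κ : Fin (d + 3) → Fin k, Function.Injective κ → N (κ 0) * a ≤ H (κ 0) * |Dt r e κ| := by
    intro κ hκ
    have hm := hne κ hκ
    have hm' : 0 < |Dt r e κ| := abs_pos.2 hm
    obtain ⟨i, hi, i', hi', -, -, h4⟩ := gap z (a / |Dt r e κ|) (univ.filter fun i => c i = κ 0)
      (hI _) (by
      intro i hi i' hi' hij
      obtain ⟨u, hu⟩ := hpair κ i i' (mem_filter.1 hi).2 (mem_filter.1 hi').2
      have h5 : z i - z i' ≠ 0 := by
        intro h6
        have h7 := hdiff i i' ((mem_filter.1 hi).2.trans (mem_filter.1 hi').2.symm)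
        rw [h6, zero_smul, sub_eq_zero] at h7
        exact hij (hX h7)
      have h6 := hmin u (by rw [hu]; exact mul_ne_zero h5 hm)
      rw [hu, abs_mul] at h6
      rw [div_le_iff₀ hm']
      exact h6)
    have h5 : z i - z i' ≤ H (κ 0) := by
      have h6 := htm _ i (mem_filter.1 hi).2
      have h7 := hbm _ i' (mem_filter.1 hi').2
      simp only [hH]
      linarith
    have h6 := h4.trans h5
    rw [← mul_div_assoc, div_le_iff₀ hm'] at h6
    exact h6
  have g2 : ∀ κ : Fin (d + 3) → Fin k, H (κ 0) * |Dt r e κ| ≤ A := by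
    intro κ
    obtain ⟨u, hu⟩ := hpair κ (top _) (bot _) (htc _) (hbc _)
    have h4 := hA u
    rw [hu, abs_mul, abs_of_nonneg (hh _)] at h4
    exact h4
  have hN0 : ∀ l, 0 ≤ N l := fun l => by
    have : (1 : ℝ) ≤ ((univ.filter fun i => c i = l).card : ℝ) := by exact_mod_cast card_pos.2 (hI l)
    simp only [hN]
    linarith
  have g5 : ∀ l, ((k : ℝ) - (d + 3)) * (N l * a) ≤ 4 * A := fun l =>
    one_line (by omega) r e l (fun κ hκ _ => hne κ hκ) (N l * a) A (H l) hA0 (mul_nonneg (hN0 l) ha)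
      (fun κ hκ hκ0 => hκ0 ▸ g1 κ hκ) (fun κ _ hκ0 => hκ0 ▸ g2 κ)
  have hcard : ∑ l, N l = (n : ℝ) - k := by
    simp only [hN]
    rw [Finset.sum_sub_distrib, ← Nat.cast_sum,
      ← Finset.card_eq_sum_card_fiberwise (f := c) (s := univ) (t := univ) (fun i _ => by simp)]
    simp
  have h7 : ∑ l : Fin k, ((k : ℝ) - (d + 3)) * (N l * a) ≤ ∑ l : Fin k, 4 * A := Finset.sum_le_sum fun l _ => g5 l
  rw [← Finset.mul_sum, ← Finset.sum_mul, hcard, Finset.sum_const, card_univ, Fintype.card_fin, nsmul_eq_mul] at h7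
  linarith

theorem sub_four {d n : ℕ} (hd : 3 ≤ d) (X : Fin n → Fin d → ℝ) (hX : Function.Injective X)
    (w : Fin d → ℝ) (hw : w ≠ 0) (J : Finset (Fin n)) (k : ℕ) (hk : d + 1 ≤ k)
    (hJ : ((fun i => {y : Fin d → ℝ | ∃ t : ℝ, y = X i + t • w}) '' (J : Set (Fin n))).ncard = k)
    (a A : ℝ) (ha : 0 ≤ a) (hA0 : 0 < A)
    (hA : ∀ u : Fin (d + 1) → Fin n,
      |(Matrix.of fun i j : Fin d => X (u i.succ) j - X (u 0) j).det| ≤ A)
    (hmin : ∀ u : Fin (d + 1) → Fin n, (Matrix.of fun i j : Fin d => X (u i.succ) j - X (u 0) j).det ≠ 0 →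
      a ≤ |(Matrix.of fun i j : Fin d => X (u i.succ) j - X (u 0) j).det|)
    (hgp : ∀ u : Fin d → Fin n, (∀ i, u i ∈ J) →
      (∀ i j, i ≠ j → {y : Fin d → ℝ | ∃ t : ℝ, y = X (u i) + t • w} ≠ {y | ∃ t : ℝ, y = X (u j) + t • w}) →
      ∀ φ : (Fin d → ℝ) →ₗ[ℝ] ℝ, φ ≠ 0 → φ w = 0 → ∃ i j, φ (X (u i)) ≠ φ (X (u j))) :
    ((k : ℝ) - d) * (((J.card : ℝ) - k) * a) ≤ 4 * k * A := by
  classical
  obtain ⟨e, rfl⟩ : ∃ e, d = e + 3 := ⟨d - 3, by omega⟩
  set ι : Fin J.card ↪o Fin n := J.orderEmbOfFin rfl with hι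
  set Y : Fin J.card → Fin (e + 3) → ℝ := fun i => X (ι i) with hY
  have hYi : Function.Injective Y := fun i j h => ι.injective (hX h)
  have hlc : (Set.range fun i => {y : Fin (e + 3) → ℝ | ∃ t : ℝ, y = Y i + t • w}).ncard = k := by
    have h1 : (fun i => {y : Fin (e + 3) → ℝ | ∃ t : ℝ, y = Y i + t • w}) =
        (fun i => {y : Fin (e + 3) → ℝ | ∃ t : ℝ, y = X i + t • w}) ∘ ι := rfl
    rw [h1, Set.range_comp, hι, Finset.range_orderEmbOfFin, hJ]
  obtain ⟨c, hc, hl⟩ := colouring Y w k hlc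
  have h5 := main_many hk Y hYi w hw c hc hl a A ha hA0 (fun u => hA fun i => ι (u i))
    (fun u hu => hmin (fun i => ι (u i)) hu) fun u hu φ hφ hφw => by
      refine hgp (fun i => ι (u i)) (fun i => J.orderEmbOfFin_mem rfl _) (fun i j hij h => ?_) φ hφ hφw
      apply hu i j hij
      rw [hl]
      have h4 : X (ι (u i)) ∈ {y : Fin (e + 3) → ℝ | ∃ t : ℝ, y = X (ι (u i)) + t • w} :=
        ⟨0, by rw [zero_smul, add_zero]⟩
      rw [h] at h4
      obtain ⟨t, ht⟩ := h4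
      exact ⟨t, by simp only [hY]; rw [ht]; abel⟩
  push_cast
  exact h5

theorem sub_many {d n : ℕ} (hd : 3 ≤ d) (X : Fin n → Fin d → ℝ) (hX : Function.Injective X)
    (w : Fin d → ℝ) (hw : w ≠ 0) (J : Finset (Fin n)) (k : ℕ) (hk : d + 1 ≤ k)
    (hJ : ((fun i => {y : Fin d → ℝ | ∃ t : ℝ, y = X i + t • w}) '' (J : Set (Fin n))).ncard = k)
    (a A : ℝ) (ha : 0 ≤ a) (hA0 : 0 < A)
    (hA : ∀ u : Fin (d + 1) → Fin n,
      |(Matrix.of fun i j : Fin d => X (u i.succ) j - X (u 0) j).det| ≤ A)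
    (hmin : ∀ u : Fin (d + 1) → Fin n, (Matrix.of fun i j : Fin d => X (u i.succ) j - X (u 0) j).det ≠ 0 →
      a ≤ |(Matrix.of fun i j : Fin d => X (u i.succ) j - X (u 0) j).det|)
    (hgp : ∀ u : Fin d → Fin n, (∀ i, u i ∈ J) →
      (∀ i j, i ≠ j → {y : Fin d → ℝ | ∃ t : ℝ, y = X (u i) + t • w} ≠ {y | ∃ t : ℝ, y = X (u j) + t • w}) →
      ∀ φ : (Fin d → ℝ) →ₗ[ℝ] ℝ, φ ≠ 0 → φ w = 0 → ∃ i j, φ (X (u i)) ≠ φ (X (u j))) :
    ((d : ℝ) + 1) * (((J.card : ℝ) - k) * a) ≤ (6 * d + 4) * A := by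
  classical
  rcases Nat.lt_or_ge k (3 * d + 2) with hk3 | hk3
  · refine (sub_gp (by omega) X hX w hw J k hk hJ a A hA hmin hgp).trans ?_
    have h1 : (k : ℝ) ≤ 3 * d + 2 := by exact_mod_cast hk3.le
    exact mul_le_mul_of_nonneg_right (by linarith) hA0.le
  have key := sub_four hd X hX w hw J k hk hJ a A ha hA0 hA hmin hgp
  have h1 : (3 : ℝ) * d + 2 ≤ k := by exact_mod_cast hk3
  have hd' : (3 : ℝ) ≤ d := by exact_mod_cast hd
  have h2 : (0 : ℝ) < (k : ℝ) - d := by linarith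
  have h3 : ((k : ℝ) - d) * (((d : ℝ) + 1) * (((J.card : ℝ) - k) * a)) ≤ ((k : ℝ) - d) * ((6 * d + 4) * A) := by
    have h4 : ((d : ℝ) + 1) * (((k : ℝ) - d) * (((J.card : ℝ) - k) * a)) ≤ (d + 1) * (4 * k * A) :=
      mul_le_mul_of_nonneg_left key (by linarith)
    have h5 : ((d : ℝ) + 1) * (4 * k * A) ≤ ((k : ℝ) - d) * ((6 * d + 4) * A) := by
      have h6 : 0 ≤ (2 * d * (k - (3 * d + 2))) * A := mul_nonneg (mul_nonneg (by linarith) (by linarith)) hA0.le
      nlinarith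
    linarith
  exact le_of_mul_le_mul_left h3 h2

theorem arith_four {d n k : ℕ} (hk : d + 1 ≤ k) (h2 : 4 * k < d * (k - d))
    (hn : k * (d * (k - d) - 4) < (d * (k - d) - 4 * k) * n) :
    ((n : ℝ) - 1) / d < ((k : ℝ) - d) * ((n : ℝ) - k) / (4 * k) := by
  obtain ⟨q, hq⟩ : ∃ q, k = d + q := ⟨k - d, by omega⟩
  have hqk : k - d = q := by omega
  rw [hqk] at h2 hn
  have hd : 0 < d := by
    rcases Nat.eq_zero_or_pos d with h | h
    · subst h
      omega
    · exact h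
  have e1 : 4 ≤ d * q := by omega
  have h3 : (k : ℝ) * ((d : ℝ) * q - 4) < ((d : ℝ) * q - 4 * k) * n := by
    have h4 : ((k * (d * q - 4) : ℕ) : ℝ) < (((d * q - 4 * k) * n : ℕ) : ℝ) := by exact_mod_cast hn
    push_cast [Nat.cast_sub e1, Nat.cast_sub h2.le] at h4
    exact h4
  have hd' : (0 : ℝ) < d := by exact_mod_cast hd
  have hk' : (0 : ℝ) < 4 * k := by
    have : (0 : ℝ) < k := by exact_mod_cast (by omega : 0 < k)
    linarith
  have hkq : (k : ℝ) - d = q := by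
    rw [hq]
    push_cast
    ring
  rw [hkq, div_lt_div_iff₀ hd' hk']
  nlinarith

theorem arith_many {d n k : ℕ} (hd : 6 ≤ d) (hn : (d ^ 2 + d) * k < (d ^ 2 - 5 * d - 4) * n) :
    ((n : ℝ) - 1) / d < ((d : ℝ) + 1) * ((n : ℝ) - k) / (6 * d + 4) := by
  have e1 : 5 * d + 4 ≤ d ^ 2 := by nlinarith
  have h3 : ((d : ℝ) ^ 2 + d) * k < ((d : ℝ) ^ 2 - 5 * d - 4) * n := by
    have h4 : (((d ^ 2 + d) * k : ℕ) : ℝ) < (((d ^ 2 - 5 * d - 4) * n : ℕ) : ℝ) := by exact_mod_cast hn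
    rw [Nat.sub_sub] at h4
    push_cast [Nat.cast_sub e1] at h4
    linarith
  have hd' : (0 : ℝ) < d := by exact_mod_cast (by omega : 0 < d)
  rw [div_lt_div_iff₀ hd' (by linarith)]
  nlinarith

end H2P
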